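import Mathlib

/-!
# Stationary `k`-dependent hard-core processes on the integers
-/

namespace HC38bc51

open MeasureTheory ProbabilityTheory

/-- The random sequence `X`, defined on the probability space `(Ω, P)`, is a stationary
`k`-dependent hard-core process on `ℤ`. -/
structure IsHardCore (k : ℕ) {Ω : Type} [MeasurableSpace Ω] (P : Measure Ω)
    (X : ℤ → Ω → Bool) : Prop where
  /-- `P` is a probability measure -/
  prob : IsProbabilityMeasure P
  /-- every `X i` is a random variable -/
  meas : ∀ i, Measurable (X i)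
  /-- almost surely there are no two adjacent ones -/
  hard : ∀ᵐ ω ∂P, ¬ ∃ i : ℤ, X i ω = true ∧ X (i + 1) ω = true
  /-- the law of `X` is invariant under the shift -/
  stat : P.map (fun ω i => X (i + 1) ω) = P.map (fun ω i => X i ω)
  /-- `k`-dependence -/
  dep : ∀ A B : Set ℤ, (∀ a ∈ A, ∀ b ∈ B, (k : ℤ) < |a - b|) →
    IndepFun (fun ω (a : A) => X a ω) (fun ω (b : B) => X b ω) P

/-- `p_k`: the supremum of `P(X_0 = 1)` over all stationary `k`-dependent hard-core processes. -/
noncomputable def pcrit (k : ℕ) : ℝ :=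
  sSup {p : ℝ | ∃ (Ω : Type) (_ : MeasurableSpace Ω) (P : Measure Ω) (X : ℤ → Ω → Bool),
    IsHardCore k P X ∧ p = P.real {ω | X 0 ω = true}}

end HC38bc51
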