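import Mathlib
import Pool.Agent.Work.MP_38bc51_pr.Defs

/-!
# Matrix-product construction of two-dependent hard-core processes
-/

namespace HC38bc51

open MeasureTheory ProbabilityTheory Filter Topology

/-- data of a matrix-product hard-core law -/
structure Data (V : Type) [AddCommGroup V] [Module ℝ V] where
  M0 : V →ₗ[ℝ] V
  M1 : V →ₗ[ℝ] V
  w : V →ₗ[ℝ] ℝ
  v : V
  wv : w v = 1
  TT : ∀ s, (M0 + M1) ((M0 + M1) s) = w s • v
  wT : ∀ s, w ((M0 + M1) s) = w s
  Tv : (M0 + M1) v = v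
  MM : ∀ s, M1 (M1 s) = 0

variable {V : Type} [AddCommGroup V] [Module ℝ V] (D : Data V)

namespace Data

/-- the transfer map -/
def T : V →ₗ[ℝ] V := D.M0 + D.M1

/-- letter map -/
def L (b : Bool) : V →ₗ[ℝ] V := if b then D.M1 else D.M0

/-- state of a word -/
def st : (n : ℕ) → (Fin n → Bool) → V
  | 0, _ => D.v
  | n + 1, f => D.L (f 0) (st n (Fin.tail f))

end Data

/-- the configuration which is `f` on `[a, a+n)` and `0` elsewhere -/
def ext : (n : ℕ) → ℤ → (Fin n → Bool) → ℤ → Bool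
  | 0, _, _ => fun _ => false
  | n + 1, a, f => Function.update (ext n (a + 1) (Fin.tail f)) a (f 0)

open Classical in
/-- state after processing the window `[a, a+n)` with ones prescribed on `S`. -/
noncomputable def Data.G (D : Data V) : ℕ → ℤ → Set ℤ → V
  | 0, _, _ => D.v
  | n + 1, a, S => if a ∈ S then D.M1 (D.G n (a + 1) S) else D.T (D.G n (a + 1) S)

namespace Data

lemma T_apply (s : V) : D.T s = D.M0 s + D.M1 s := rfl

lemma TT' (s : V) : D.T (D.T s) = D.w s • D.v := D.TT s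
lemma wT' (s : V) : D.w (D.T s) = D.w s := D.wT s
lemma Tv' : D.T D.v = D.v := D.Tv

lemma G_pos {n : ℕ} {a : ℤ} {S : Set ℤ} (h : a ∈ S) :
    D.G (n + 1) a S = D.M1 (D.G n (a + 1) S) := by rw [G, if_pos h]

lemma G_neg {n : ℕ} {a : ℤ} {S : Set ℤ} (h : a ∉ S) :
    D.G (n + 1) a S = D.T (D.G n (a + 1) S) := by rw [G, if_neg h]

lemma G_congr {S S' : Set ℤ} : ∀ (n : ℕ) (a : ℤ),
    (∀ i, a ≤ i → i < a + n → (i ∈ S ↔ i ∈ S')) → D.G n a S = D.G n a S'
  | 0, _, _ => rfl
  | n + 1, a, h => by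
    have ih := G_congr (S := S) (S' := S') n (a + 1) (fun i h1 h2 => h i (by omega)
      (by push_cast at h2 ⊢; omega))
    have ha := h a le_rfl (by push_cast; omega)
    by_cases h1 : a ∈ S
    · rw [D.G_pos h1, D.G_pos (ha.mp h1), ih]
    · rw [D.G_neg h1, D.G_neg (fun h2 => h1 (ha.mpr h2)), ih]

lemma G_empty {S : Set ℤ} : ∀ (n : ℕ) (a : ℤ), (∀ i, a ≤ i → i < a + n → i ∉ S) →
    D.G n a S = D.v
  | 0, _, _ => rfl
  | n + 1, a, h => by
    have ih := G_empty (S := S) n (a + 1) (fun i h1 h2 => h i (by omega)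
      (by push_cast at h2 ⊢; omega))
    rw [D.G_neg (h a le_rfl (by push_cast; omega)), ih, D.Tv']

/-- extension to the right -/
lemma G_right {S : Set ℤ} : ∀ (n : ℕ) (a : ℤ), a + n ∉ S → D.G (n + 1) a S = D.G n a S
  | 0, a, h => by
    rw [D.G_neg (by simpa using h)]
    exact D.Tv'
  | n + 1, a, h => by
    have ih := G_right (S := S) n (a + 1) (by
      have e : a + 1 + (n : ℤ) = a + ((n + 1 : ℕ) : ℤ) := by push_cast; ring
      rwa [e])
    by_cases h1 : a ∈ S
    · rw [D.G_pos h1, ih, D.G_pos h1]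
    · rw [D.G_neg h1, ih, D.G_neg h1]

/-- extension to the left -/
lemma w_G_left {S : Set ℤ} {n : ℕ} {a : ℤ} (h : a ∉ S) :
    D.w (D.G (n + 1) a S) = D.w (D.G n (a + 1) S) := by
  rw [D.G_neg h, D.wT']

lemma w_G_right_many {S : Set ℤ} {n : ℕ} {a : ℤ} (m : ℕ) (h : ∀ i, a + n ≤ i → i ∉ S) :
    D.G (n + m) a S = D.G n a S := by
  induction m with
  | zero => rfl
  | succ m ih =>
    rw [← add_assoc, D.G_right _ _ (h _ (by push_cast; omega)), ih]

lemma w_G_left_many {S : Set ℤ} {n : ℕ} {a : ℤ} (m : ℕ) (h : ∀ i, i < a → i ∉ S) :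
    D.w (D.G (n + m) (a - m) S) = D.w (D.G n a S) := by
  induction m with
  | zero => simp
  | succ m ih =>
    rw [← add_assoc, D.w_G_left (h _ (by push_cast; omega))]
    have e : a - ((m + 1 : ℕ) : ℤ) + 1 = a - m := by push_cast; ring
    rw [e, ih]

/-- the correlation function: value on a big symmetric window -/
noncomputable def rho (S : Finset ℤ) : ℝ :=
  D.w (D.G (2 * (S.sup Int.natAbs + 1)) (-((S.sup Int.natAbs + 1 : ℕ) : ℤ)) S)

lemma rho_eq {S : Finset ℤ} {n : ℕ} (hn : ∀ i ∈ S, -(n : ℤ) ≤ i ∧ i < n) :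
    D.w (D.G (2 * n) (-(n : ℤ)) S) = D.rho S := by
  -- both agree with a bigger window
  have key : ∀ m : ℕ, (∀ i ∈ S, -(m : ℤ) ≤ i ∧ i < m) → ∀ k : ℕ,
      D.w (D.G (2 * (m + k)) (-((m + k : ℕ) : ℤ)) S) = D.w (D.G (2 * m) (-(m : ℤ)) S) := by
    intro m hm k
    have e1 : 2 * (m + k) = (2 * m + k) + k := by ring
    have e2 : -((m + k : ℕ) : ℤ) = -(m : ℤ) - (k : ℤ) := by push_cast; ring
    rw [e1, e2, D.w_G_left_many k, D.w_G_right_many k]
    · intro i hi h
      have := hm i h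
      push_cast at hi
      omega
    · intro i hi h
      have := hm i h
      omega
  set N := S.sup Int.natAbs + 1 with hN
  have hNS : ∀ i ∈ S, -(N : ℤ) ≤ i ∧ i < N := by
    intro i hi
    have h1 : i.natAbs ≤ S.sup Int.natAbs := Finset.le_sup (f := Int.natAbs) hi
    have h2 : i.natAbs < N := by omega
    omega
  have k1 := key n hn N
  have k2 := key N hNS n
  rw [add_comm N n] at k2
  rw [← k1, k2, rho]

lemma G_shift {S S' : Set ℤ} (h : ∀ i, i + 1 ∈ S ↔ i ∈ S') : ∀ (n : ℕ) (a : ℤ),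
    D.G n (a + 1) S = D.G n a S'
  | 0, _ => rfl
  | n + 1, a => by
    have ih := G_shift h n (a + 1)
    by_cases h1 : a ∈ S'
    · rw [D.G_pos ((h a).mpr h1), D.G_pos h1, ih]
    · rw [D.G_neg (fun h2 => h1 ((h a).mp h2)), D.G_neg h1, ih]

lemma rho_shift {S S' : Finset ℤ} (h : ∀ i, i + 1 ∈ S ↔ i ∈ S') : D.rho S = D.rho S' := by
  -- take a window which is large for both
  obtain ⟨N, hN⟩ : ∃ N : ℕ, (∀ i ∈ S', -(N : ℤ) ≤ i ∧ i < N) := by
    refine ⟨S'.sup Int.natAbs + 1, fun i hi => ?_⟩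
    have h1 : i.natAbs ≤ S'.sup Int.natAbs := Finset.le_sup (f := Int.natAbs) hi
    push_cast
    omega
  have hS : ∀ i ∈ S, -(N : ℤ) + 1 ≤ i ∧ i < N + 1 := by
    intro i hi
    have := hN (i - 1) ((h (i - 1)).mp (by simpa using hi))
    omega
  rw [← D.rho_eq (n := N) hN, ← D.rho_eq (n := N + 1) (fun i hi => by
    have := hS i hi; push_cast; omega)]
  have e1 : 2 * (N + 1) = (2 * N + 1) + 1 := by ring
  have e2 : -((N + 1 : ℕ) : ℤ) = -(N : ℤ) - 1 := by push_cast; ring
  rw [e1, e2, D.w_G_left (by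
    intro h1; have := hS _ h1; omega)]
  have e3 : -(N : ℤ) - 1 + 1 = -(N : ℤ) := by ring
  rw [e3, D.w_G_left (by intro h1; have := hS _ h1; omega),
    D.G_shift (S := (S : Set ℤ)) (S' := (S' : Set ℤ))
      (fun i => by rw [Finset.mem_coe, Finset.mem_coe]; exact h i)]

/-- two free positions -/
lemma G_free {S : Set ℤ} {n : ℕ} {a : ℤ} (h0 : a ∉ S) (h1 : a + 1 ∉ S) :
    D.G n a S = D.w (D.G n a S) • D.v := by
  match n with
  | 0 => simp [G, D.wv]
  | 1 => rw [D.G_neg h0]; simp only [G]; rw [D.Tv', D.wv, one_smul]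
  | n + 2 => rw [D.G_neg h0, D.G_neg h1, D.TT', map_smul, D.wv, smul_eq_mul, mul_one]

lemma G_union {S T : Set ℤ} (hST : ∀ a ∈ S, ∀ b ∈ T, 2 < |a - b|) : ∀ (n : ℕ) (a : ℤ),
    ((a ∉ T ∧ a + 1 ∉ T) → D.G n a (S ∪ T) = D.w (D.G n a T) • D.G n a S) ∧
    ((a ∉ S ∧ a + 1 ∉ S) → D.G n a (S ∪ T) = D.w (D.G n a S) • D.G n a T) := by
  intro n
  induction n with
  | zero => intro a; simp [G, D.wv]
  | succ n ih =>
    intro a
    obtain ⟨ih1, ih2⟩ := ih (a + 1)
    have far : ∀ i ∈ S, ∀ j ∈ T, i + 2 < j ∨ j + 2 < i := by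
      intro i hi j hj
      have := hST i hi j hj
      rcases abs_cases (i - j) with h | h <;> omega
    by_cases haS : a ∈ S
    · have haT : a ∉ T := fun h => by have := far a haS a h; omega
      have haT1 : a + 1 ∉ T := fun h => by have := far a haS _ h; omega
      have haT2 : a + 1 + 1 ∉ T := fun h => by have := far a haS _ h; omega
      refine ⟨fun _ => ?_, fun h => absurd haS h.1⟩
      rw [D.G_pos (Or.inl haS : a ∈ S ∪ T), ih1 ⟨haT1, haT2⟩, D.w_G_left haT, D.G_pos haS,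
        map_smul]
    · by_cases haT : a ∈ T
      · have haS1 : a + 1 ∉ S := fun h => by have := far _ h a haT; omega
        have haS2 : a + 1 + 1 ∉ S := fun h => by have := far _ h a haT; omega
        refine ⟨fun h => absurd haT h.1, fun _ => ?_⟩
        rw [D.G_pos (Or.inr haT : a ∈ S ∪ T), ih2 ⟨haS1, haS2⟩, D.w_G_left haS, D.G_pos haT,
          map_smul]
      · have hU : a ∉ S ∪ T := fun h => h.elim haS haT
        constructor
        · rintro ⟨-, h1⟩
          by_cases h2 : a + 1 + 1 ∈ T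
          · have haS1 : a + 1 ∉ S := fun h => by have := far _ h _ h2; omega
            have haS2 : a + 1 + 1 ∉ S := fun h => by have := far _ h _ h2; omega
            have e1 := D.G_free (n := n + 1) haT h1
            have e2 := D.G_free (n := n + 1) haS haS1
            rw [D.G_neg hU, ih2 ⟨haS1, haS2⟩, map_smul, ← D.G_neg haT, e1, e2, D.w_G_left haS,
              D.w_G_left haT]
            simp only [map_smul, D.wv, smul_eq_mul, mul_one]
            rw [smul_smul, smul_smul, mul_comm]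
          · rw [D.G_neg hU, ih1 ⟨h1, h2⟩, map_smul, ← D.G_neg haS, D.w_G_left haT]
        · rintro ⟨-, h1⟩
          by_cases h2 : a + 1 + 1 ∈ S
          · have haT1 : a + 1 ∉ T := fun h => by have := far _ h2 _ h; omega
            have haT2 : a + 1 + 1 ∉ T := fun h => by have := far _ h2 _ h; omega
            have e1 := D.G_free (n := n + 1) haT haT1
            have e2 := D.G_free (n := n + 1) haS h1
            rw [D.G_neg hU, ih1 ⟨haT1, haT2⟩, map_smul, ← D.G_neg haS, e1, e2, D.w_G_left haS,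
              D.w_G_left haT]
            simp only [map_smul, D.wv, smul_eq_mul, mul_one]
            rw [smul_smul, smul_smul, mul_comm]
          · rw [D.G_neg hU, ih2 ⟨h1, h2⟩, map_smul, ← D.G_neg haT, D.w_G_left haS]

lemma w_G_union {S T : Set ℤ} (hST : ∀ a ∈ S, ∀ b ∈ T, 2 < |a - b|) (n : ℕ) (a : ℤ) :
    D.w (D.G n a (S ∪ T)) = D.w (D.G n a S) * D.w (D.G n a T) := by
  by_cases h : a ∉ T ∧ a + 1 ∉ T
  · rw [(D.G_union hST n a).1 h, map_smul, smul_eq_mul, mul_comm]
  · have h2 : a ∉ S ∧ a + 1 ∉ S := by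
      have far : ∀ i ∈ S, ∀ j ∈ T, i + 2 < j ∨ j + 2 < i := by
        intro i hi j hj
        have := hST i hi j hj
        rcases abs_cases (i - j) with h | h <;> omega
      rw [not_and_or, not_not, not_not] at h
      rcases h with h | h
      · exact ⟨fun h1 => by have := far _ h1 _ h; omega, fun h1 => by have := far _ h1 _ h; omega⟩
      · exact ⟨fun h1 => by have := far _ h1 _ h; omega, fun h1 => by have := far _ h1 _ h; omega⟩
    rw [(D.G_union hST n a).2 h2, map_smul, smul_eq_mul]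

lemma rho_union {S T : Finset ℤ} (hST : ∀ a ∈ S, ∀ b ∈ T, 2 < |a - b|) :
    D.rho (S ∪ T) = D.rho S * D.rho T := by
  set N := (S ∪ T).sup Int.natAbs + 1 with hN
  have hNS : ∀ i ∈ S ∪ T, -(N : ℤ) ≤ i ∧ i < N := by
    intro i hi
    have h1 : i.natAbs ≤ (S ∪ T).sup Int.natAbs := Finset.le_sup (f := Int.natAbs) hi
    omega
  rw [← D.rho_eq hNS, ← D.rho_eq (S := S) (fun i hi => hNS i (Finset.mem_union_left _ hi)),
    ← D.rho_eq (S := T) (fun i hi => hNS i (Finset.mem_union_right _ hi)), Finset.coe_union,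
    D.w_G_union (by simpa using hST)]

end Data

end HC38bc51
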