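import Mathlib
import Pool.Agent.Work.MP_38bc51_pr.Construct

/-!
# The measure
-/

namespace HC38bc51

open MeasureTheory ProbabilityTheory Filter Topology

variable {V : Type} [AddCommGroup V] [Module ℝ V] (D : Data V)

/-- cylinder event: all coordinates in `S` are one -/
def Cyl (S : Finset ℤ) : Set (ℤ → Bool) := {x | ∀ i ∈ S, x i = true}

lemma isClopen_Cyl (S : Finset ℤ) : IsClopen (Cyl S) := by
  have e : Cyl S = ⋂ i ∈ S, (fun x : ℤ → Bool => x i) ⁻¹' {true} := by
    ext x; simp [Cyl]
  rw [e]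
  exact S.finite_toSet.isClopen_biInter fun i _ => (isClopen_discrete _).preimage (continuous_apply i)

lemma measurableSet_Cyl (S : Finset ℤ) : MeasurableSet (Cyl S) :=
  (isClopen_Cyl S).isOpen.measurableSet

open Classical in
lemma sum_st : ∀ (n : ℕ) (a : ℤ) (S : Set ℤ),
    ∑ f : Fin n → Bool, (if ∀ i ∈ S, a ≤ i → i < a + n → ext n a f i = true then D.st n f else 0)
      = D.G n a S := by
  intro n
  induction n with
  | zero =>
    intro a S
    have : ∀ i ∈ S, a ≤ i → i < a + ((0 : ℕ) : ℤ) → ext 0 a (default : Fin 0 → Bool) i = true := by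
      intro i _ h1 h2; push_cast at h2; omega
    rw [Fintype.sum_subsingleton _ (default : Fin 0 → Bool), if_pos this]
    rfl
  | succ n ih =>
    intro a S
    have hc : ∀ (b : Bool) (g : Fin n → Bool),
        (∀ i ∈ S, a ≤ i → i < a + ((n + 1 : ℕ) : ℤ) →
          ext (n + 1) a (Fin.cons b g : Fin (n + 1) → Bool) i = true) ↔
        ((a ∈ S → b = true) ∧ ∀ i ∈ S, a + 1 ≤ i → i < a + 1 + (n : ℤ) →
          ext n (a + 1) g i = true) := by
      intro b g
      constructor
      · intro h
        constructor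
        · intro ha
          have := h a ha le_rfl (by push_cast; omega)
          simpa [ext] using this
        · intro i hi h1 h2
          have := h i hi (by omega) (by push_cast; omega)
          simp only [ext, Fin.tail_cons, Fin.cons_zero] at this
          rwa [Function.update_of_ne (by omega)] at this
      · rintro ⟨h1, h2⟩ i hi h3 h4
        simp only [ext, Fin.tail_cons, Fin.cons_zero]
        by_cases hia : i = a
        · subst hia
          rw [Function.update_self]
          exact h1 hi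
        · rw [Function.update_of_ne hia]
          exact h2 i hi (by omega) (by push_cast at h4; omega)
    rw [← (Fin.consEquiv (fun _ => Bool)).sum_comp, Fintype.sum_prod_type]
    have e : ∀ (b : Bool) (g : Fin n → Bool), (Fin.consEquiv (fun _ : Fin (n + 1) => Bool)) (b, g)
        = (Fin.cons b g : Fin (n + 1) → Bool) := fun _ _ => rfl
    simp only [e]
    have hst : ∀ (b : Bool) (g : Fin n → Bool),
        D.st (n + 1) (Fin.cons b g : Fin (n + 1) → Bool) = D.L b (D.st n g) := by
      intro b g; simp [Data.st]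
    simp only [hc, hst]
    have hsum : ∀ b : Bool, ∑ g : Fin n → Bool,
        (if (a ∈ S → b = true) ∧ ∀ i ∈ S, a + 1 ≤ i → i < a + 1 + (n : ℤ) →
          ext n (a + 1) g i = true then D.L b (D.st n g) else 0)
        = if a ∈ S → b = true then D.L b (D.G n (a + 1) S) else 0 := by
      intro b
      by_cases hb : a ∈ S → b = true
      · rw [if_pos hb, ← ih (a + 1) S, map_sum]
        refine Finset.sum_congr rfl fun g _ => ?_
        by_cases hg : ∀ i ∈ S, a + 1 ≤ i → i < a + 1 + (n : ℤ) → ext n (a + 1) g i = true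
        · rw [if_pos ⟨hb, hg⟩, if_pos hg]
        · rw [if_neg (fun h => hg h.2), if_neg hg, map_zero]
      · rw [if_neg hb]
        exact Finset.sum_eq_zero fun g _ => if_neg fun h => hb h.1
    rw [Fintype.sum_bool, hsum, hsum]
    by_cases ha : a ∈ S
    · rw [D.G_pos ha, if_pos (fun _ => rfl), if_neg (by simp [ha]), add_zero]
      rfl
    · rw [D.G_neg ha, if_pos (fun _ => rfl), if_pos (by simp [ha]), Data.T_apply, add_comm]
      rfl

/-- finite window measure -/
noncomputable def win (n : ℕ) (a : ℤ) : Measure (ℤ → Bool) :=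
  ∑ f : Fin n → Bool, ENNReal.ofReal (D.w (D.st n f)) • Measure.dirac (ext n a f)

lemma win_Cyl (hpos : ∀ n (f : Fin n → Bool), 0 ≤ D.w (D.st n f)) {n : ℕ} {a : ℤ} {S : Finset ℤ}
    (hS : ∀ i ∈ S, a ≤ i ∧ i < a + n) :
    win D n a (Cyl S) = ENNReal.ofReal (D.w (D.G n a S)) := by
  classical
  rw [win, Measure.finsetSum_apply, ← sum_st, map_sum, ENNReal.ofReal_sum_of_nonneg]
  · refine Finset.sum_congr rfl fun f _ => ?_
    rw [Measure.smul_apply, Measure.dirac_apply' _ (measurableSet_Cyl S), smul_eq_mul]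
    by_cases h : ∀ i ∈ (S : Set ℤ), a ≤ i → i < a + (n : ℤ) → ext n a f i = true
    · rw [if_pos h, Set.indicator_of_mem, Pi.one_apply, mul_one]
      intro i hi
      exact h i hi (hS i hi).1 (hS i hi).2
    · rw [if_neg h, Set.indicator_of_notMem, mul_zero, map_zero, ENNReal.ofReal_zero]
      intro h2
      exact h fun i hi _ _ => h2 i hi
  · intro f _
    split_ifs
    · exact hpos n f
    · simp

lemma win_prob (hpos : ∀ n (f : Fin n → Bool), 0 ≤ D.w (D.st n f)) (n : ℕ) (a : ℤ) :
    IsProbabilityMeasure (win D n a) := by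
  constructor
  have h := win_Cyl D hpos (n := n) (a := a) (S := ∅) (by simp)
  have e : Cyl ∅ = Set.univ := by ext x; simp [Cyl]
  rw [e, Finset.coe_empty, D.G_empty _ _ (by simp), D.wv] at h
  simpa using h

lemma exists_measure (hpos : ∀ n (f : Fin n → Bool), 0 ≤ D.w (D.st n f)) :
    ∃ μ : ProbabilityMeasure (ℤ → Bool), ∀ S : Finset ℤ,
      (μ : Measure (ℤ → Bool)) (Cyl S) = ENNReal.ofReal (D.rho S) := by
  set μs : ℕ → ProbabilityMeasure (ℤ → Bool) :=
    fun n => ⟨win D (2 * n) (-(n : ℤ)), win_prob D hpos _ _⟩ with hμs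
  set U : Ultrafilter ℕ := Filter.hyperfilter ℕ
  obtain ⟨μ, -, hμ⟩ := isCompact_univ.ultrafilter_le_nhds (U.map μs) (by simp)
  have hμ' : Tendsto μs U (𝓝 μ) := hμ
  refine ⟨μ, fun S => ?_⟩
  have h1 := ProbabilityMeasure.tendsto_measure_of_isClopen_of_tendsto hμ' (isClopen_Cyl S)
  have h2 : ∀ᶠ n in (U : Filter ℕ), μs n (Cyl S) = (ENNReal.ofReal (D.rho S)).toNNReal := by
    have h3 : ∀ᶠ n in atTop, μs n (Cyl S) = (ENNReal.ofReal (D.rho S)).toNNReal := by
      filter_upwards [eventually_ge_atTop (S.sup Int.natAbs + 1)] with n hn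
      have hnS : ∀ i ∈ S, -(n : ℤ) ≤ i ∧ i < n := by
        intro i hi
        have h1 : i.natAbs ≤ S.sup Int.natAbs := Finset.le_sup (f := Int.natAbs) hi
        omega
      have h4 := win_Cyl D hpos (n := 2 * n) (a := -(n : ℤ)) (S := S) (fun i hi => by
        have := hnS i hi; push_cast; omega)
      rw [D.rho_eq hnS] at h4
      change ((win D (2 * n) (-(n : ℤ))) (Cyl S)).toNNReal = _
      rw [h4]
    exact (Nat.hyperfilter_le_atTop h3)
  have h3 := tendsto_nhds_unique (h1.congr' h2) tendsto_const_nhds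
  have h4 : ((μ (Cyl S) : NNReal) : ENNReal) = (μ : Measure (ℤ → Bool)) (Cyl S) :=
    ProbabilityMeasure.ennreal_coeFn_eq_coeFn_toMeasure _ _
  rw [← h4, h3, ENNReal.coe_toNNReal ENNReal.ofReal_ne_top]

end HC38bc51
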