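import Mathlib
import Pool.Agent.Work.MP_38bc51_pr.Measure

/-!
# The law is stationary, two-dependent and hard-core
-/

namespace HC38bc51

open MeasureTheory ProbabilityTheory Filter Topology

variable {V : Type} [AddCommGroup V] [Module ℝ V] (D : Data V)

lemma Cyl_inter (S T : Finset ℤ) : Cyl S ∩ Cyl T = Cyl (S ∪ T) := by
  ext x
  simp only [Cyl, Set.mem_inter_iff, Set.mem_ofPred_eq, Finset.mem_union]
  constructor
  · rintro ⟨h1, h2⟩ i (hi | hi)
    · exact h1 i hi
    · exact h2 i hi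
  · intro h
    exact ⟨fun i hi => h i (Or.inl hi), fun i hi => h i (Or.inr hi)⟩

/-- the π-system of cylinder events over `A` -/
def cylSys (A : Set ℤ) : Set (Set (ℤ → Bool)) := {s | ∃ S : Finset ℤ, (S : Set ℤ) ⊆ A ∧ s = Cyl S}

lemma isPiSystem_cylSys (A : Set ℤ) : IsPiSystem (cylSys A) := by
  classical
  rintro s ⟨S, hS, rfl⟩ t ⟨T, hT, rfl⟩ -
  refine ⟨S ∪ T, ?_, Cyl_inter S T⟩
  rw [Finset.coe_union]
  exact Set.union_subset hS hT

lemma comap_eq (A : Set ℤ) :
    MeasurableSpace.comap (fun (x : ℤ → Bool) (a : A) => x a) inferInstance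
      = MeasurableSpace.generateFrom (cylSys A) := by
  apply le_antisymm
  · rw [← measurable_iff_comap_le]
    rw [@measurable_pi_iff]
    intro a
    apply @measurable_to_bool
    apply MeasurableSpace.measurableSet_generateFrom
    refine ⟨{(a : ℤ)}, by simp, ?_⟩
    ext x
    simp [Cyl]
  · apply MeasurableSpace.generateFrom_le
    rintro s ⟨S, hS, rfl⟩
    refine ⟨{y | ∀ i : A, (i : ℤ) ∈ S → y i = true}, ?_, ?_⟩
    · have e : {y : A → Bool | ∀ i : A, (i : ℤ) ∈ S → y i = true}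
          = ⋂ i : A, {y | (i : ℤ) ∈ S → y i = true} := by
        ext y; simp
      rw [e]
      refine MeasurableSet.iInter fun i => ?_
      by_cases hi : (i : ℤ) ∈ S
      · have e2 : {y : A → Bool | (i : ℤ) ∈ S → y i = true} = (fun y : A → Bool => y i) ⁻¹' {true} := by
          ext y; simp [hi]
        rw [e2]
        exact (measurable_pi_apply i) (measurableSet_singleton _)
      · have e2 : {y : A → Bool | (i : ℤ) ∈ S → y i = true} = Set.univ := by
          ext y; simp [hi]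
        rw [e2]
        exact MeasurableSet.univ
    · ext x
      simp only [Cyl, Set.mem_preimage, Set.mem_ofPred_eq, Subtype.forall]
      constructor
      · intro h i hi
        exact h i (hS hi) hi
      · intro h i _ hi
        exact h i hi

lemma pi_eq : (inferInstance : MeasurableSpace (ℤ → Bool))
    = MeasurableSpace.generateFrom (cylSys Set.univ) := by
  apply le_antisymm
  · rw [← comap_eq]
    intro s hs
    refine ⟨{y | (fun i : ℤ => y ⟨i, trivial⟩) ∈ s}, ?_, ?_⟩
    · exact (measurable_pi_iff.mpr fun i => measurable_pi_apply _) hs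
    · ext x; simp
  · apply MeasurableSpace.generateFrom_le
    rintro s ⟨S, -, rfl⟩
    exact measurableSet_Cyl S

lemma Data.G_adj {S : Set ℤ} {i : ℤ} (h1 : i ∈ S) (h2 : i + 1 ∈ S) : ∀ (n : ℕ) (a : ℤ),
    a ≤ i → i + 1 < a + n → D.G n a S = 0
  | 0, a, h3, h4 => by push_cast at h4; omega
  | n + 1, a, h3, h4 => by
    rcases eq_or_lt_of_le h3 with h | h
    · subst h
      obtain ⟨m, rfl⟩ : ∃ m, n = m + 1 := ⟨n - 1, by push_cast at h4; omega⟩
      rw [D.G_pos h1, D.G_pos h2, D.MM]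
    · have ih := Data.G_adj h1 h2 n (a + 1) (by omega) (by push_cast at h4; omega)
      by_cases ha : a ∈ S
      · rw [D.G_pos ha, ih, map_zero]
      · rw [D.G_neg ha, ih, map_zero]

lemma Data.rho_adj (i : ℤ) : D.rho {i, i + 1} = 0 := by
  have hn : ∀ j ∈ ({i, i + 1} : Finset ℤ),
      -((i.natAbs + 2 : ℕ) : ℤ) ≤ j ∧ j < ((i.natAbs + 2 : ℕ) : ℤ) := by
    intro j hj
    rw [Finset.mem_insert, Finset.mem_singleton] at hj
    omega
  rw [← D.rho_eq hn, D.G_adj (i := i) (by simp) (by simp), map_zero]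
  · omega
  · omega

lemma Data.G_nonneg (hpos : ∀ n (f : Fin n → Bool), 0 ≤ D.w (D.st n f)) (n : ℕ) (a : ℤ)
    (S : Set ℤ) : 0 ≤ D.w (D.G n a S) := by
  classical
  rw [← sum_st, map_sum]
  refine Finset.sum_nonneg fun f _ => ?_
  split_ifs
  · exact hpos n f
  · simp

lemma Data.rho_zero : D.rho {0} = D.w (D.M1 D.v) := by
  have hn : ∀ j ∈ ({0} : Finset ℤ), -((1 : ℕ) : ℤ) ≤ j ∧ j < ((1 : ℕ) : ℤ) := by
    intro j hj
    rw [Finset.mem_singleton] at hj
    push_cast
    omega
  rw [← D.rho_eq hn]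
  have e : 2 * 1 = 1 + 1 := rfl
  rw [e, D.w_G_left (by simp)]
  have e2 : -((1 : ℕ) : ℤ) + 1 = 0 := by norm_num
  rw [e2, D.G_pos (n := 0) (by simp)]
  rfl

theorem exists_process (hpos : ∀ n (f : Fin n → Bool), 0 ≤ D.w (D.st n f)) :
    ∃ P : Measure (ℤ → Bool), IsHardCore 2 P (fun i x => x i) ∧
      P.real {x | x 0 = true} = D.w (D.M1 D.v) := by
  classical
  obtain ⟨μ, hμ⟩ := exists_measure D hpos
  have hr : ∀ S : Finset ℤ, 0 ≤ D.rho S := fun S => D.G_nonneg hpos _ _ _
  refine ⟨(μ : Measure (ℤ → Bool)), ⟨inferInstance, fun i => measurable_pi_apply i, ?_, ?_, ?_⟩, ?_⟩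
  · -- hard-core
    rw [ae_iff]
    have e : {x : ℤ → Bool | ¬ ¬ ∃ i : ℤ, x i = true ∧ x (i + 1) = true}
        = ⋃ i : ℤ, Cyl {i, i + 1} := by
      ext x; simp [Cyl]
    rw [e, measure_iUnion_null_iff]
    intro i
    rw [hμ, D.rho_adj, ENNReal.ofReal_zero]
  · -- stationarity
    have hm1 : Measurable (fun (x : ℤ → Bool) (i : ℤ) => x (i + 1)) :=
      measurable_pi_iff.mpr fun i => measurable_pi_apply _
    have hm2 : Measurable (fun (x : ℤ → Bool) (i : ℤ) => x i) :=
      measurable_pi_iff.mpr fun i => measurable_pi_apply _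
    have : IsProbabilityMeasure (Measure.map (fun (x : ℤ → Bool) (i : ℤ) => x (i + 1))
      (μ : Measure (ℤ → Bool))) := Measure.isProbabilityMeasure_map hm1.aemeasurable
    refine ext_of_generate_finite _ pi_eq (isPiSystem_cylSys Set.univ) ?_ ?_
    · rintro s ⟨S, -, rfl⟩
      rw [Measure.map_apply hm1 (measurableSet_Cyl S), Measure.map_apply hm2 (measurableSet_Cyl S)]
      have e1 : (fun (x : ℤ → Bool) (i : ℤ) => x (i + 1)) ⁻¹' Cyl S
          = Cyl (S.image (· + 1)) := by
        ext x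
        simp only [Cyl, Set.mem_preimage, Set.mem_ofPred_eq, Finset.forall_mem_image]
      have e2 : (fun (x : ℤ → Bool) (i : ℤ) => x i) ⁻¹' Cyl S = Cyl S := rfl
      rw [e1, e2, hμ, hμ, D.rho_shift (S := S.image (· + 1)) (S' := S) (fun i => by simp)]
    · rw [Measure.map_apply hm1 MeasurableSet.univ, Measure.map_apply hm2 MeasurableSet.univ]
      rfl
  · -- independence
    intro A B hAB
    rw [IndepFun_iff_Indep, comap_eq, comap_eq]
    refine IndepSets.indep' ?_ ?_ (isPiSystem_cylSys A) (isPiSystem_cylSys B) ?_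
    · rintro s ⟨S, -, rfl⟩; exact measurableSet_Cyl S
    · rintro s ⟨S, -, rfl⟩; exact measurableSet_Cyl S
    · rw [IndepSets_iff]
      rintro s t ⟨S, hS, rfl⟩ ⟨T, hT, rfl⟩
      rw [Cyl_inter, hμ, hμ, hμ, D.rho_union, ENNReal.ofReal_mul (hr S)]
      intro a ha b hb
      exact_mod_cast hAB a (hS ha) b (hT hb)
  · have e : {x : ℤ → Bool | x 0 = true} = Cyl {0} := by ext x; simp [Cyl]
    rw [e, Measure.real, hμ, D.rho_zero, ENNReal.toReal_ofReal]
    rw [← D.rho_zero]
    exact hr _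

end HC38bc51
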