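import Mathlib
import Pool.Agent.Work.MP_38bc51_pr.Construct

/-!
# The two-type Markov renewal law with `p = 9/25` and its positivity certificate

The state space is `ℝ⁵`: coordinate `0` is the fresh state, coordinates `1, 2` mean that the last one
has type `1`, resp. `2`, and is adjacent, coordinates `3, 4` the same at distance two.
-/

namespace HC38bc51

/-- integer states -/
structure Z5 where
  f : ℤ
  a : ℤ
  b : ℤ
  c : ℤ
  d : ℤ
deriving DecidableEq

namespace Z5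

def add (x y : Z5) : Z5 := ⟨x.f + y.f, x.a + y.a, x.b + y.b, x.c + y.c, x.d + y.d⟩

def smul (n : ℕ) (x : Z5) : Z5 := ⟨n * x.f, n * x.a, n * x.b, n * x.c, n * x.d⟩

/-- `5000` times the map for the letter `0` -/
def m0 (x : Z5) : Z5 :=
  ⟨5000 * (x.f + x.c + x.d), -(1732 * x.f + 2500 * x.c), -(68 * x.f + 330 * x.d), 5000 * x.a,
    5000 * x.b⟩

def wt (x : Z5) : ℤ := x.f + x.a + x.b + x.c + x.d

/-- the real vector of an integer state -/
def toV (x : Z5) : Fin 5 → ℝ := ![(x.f : ℝ), x.a, x.b, x.c, x.d]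

end Z5

/-- linear combination with natural coefficients -/
def comb : List ℕ → List Z5 → Z5
  | n :: L, x :: X => (x.smul n).add (comb L X)
  | _, _ => ⟨0, 0, 0, 0, 0⟩

structure Entry where
  g : Z5
  n : ℕ
  L : List ℕ

def chk5 (E : List Entry) : Bool :=
  (E.all fun e => decide (0 < e.n) && decide ((e.g.m0).smul e.n = comb e.L (E.map Entry.g)) &&
    decide (0 ≤ 1732 * e.g.f + 2500 * e.g.c) && decide (0 ≤ 68 * e.g.f + 330 * e.g.d) &&
    decide (0 ≤ e.g.wt)) &&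
  decide ((⟨1, 0, 0, 0, 0⟩ : Z5) ∈ E.map Entry.g) &&
  decide ((⟨0, 1, 0, 0, 0⟩ : Z5) ∈ E.map Entry.g) &&
  decide ((⟨0, 0, 1, 0, 0⟩ : Z5) ∈ E.map Entry.g)

/-- the map for the letter `0` -/
noncomputable def nM0 : (Fin 5 → ℝ) →ₗ[ℝ] (Fin 5 → ℝ) where
  toFun s := ![s 0 + s 3 + s 4, -(433 / 1250 * s 0 + 1 / 2 * s 3),
    -(17 / 1250 * s 0 + 33 / 500 * s 4), s 1, s 2]
  map_add' x y := by
    funext i
    fin_cases i <;> simp <;> ring
  map_smul' r x := by
    funext i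
    fin_cases i <;> simp <;> ring

/-- the map for the letter `1` -/
noncomputable def nM1 : (Fin 5 → ℝ) →ₗ[ℝ] (Fin 5 → ℝ) where
  toFun s := ![0, 433 / 1250 * s 0 + 1 / 2 * s 3, 17 / 1250 * s 0 + 33 / 500 * s 4, 0, 0]
  map_add' x y := by
    funext i
    fin_cases i <;> simp <;> ring
  map_smul' r x := by
    funext i
    fin_cases i <;> simp <;> ring

/-- the total mass -/
noncomputable def nw : (Fin 5 → ℝ) →ₗ[ℝ] ℝ where
  toFun s := s 0 + s 1 + s 2 + s 3 + s 4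
  map_add' x y := by simp; ring
  map_smul' r x := by simp; ring

lemma nM0_apply (s : Fin 5 → ℝ) : nM0 s = ![s 0 + s 3 + s 4, -(433 / 1250 * s 0 + 1 / 2 * s 3),
    -(17 / 1250 * s 0 + 33 / 500 * s 4), s 1, s 2] := rfl

lemma nM1_apply (s : Fin 5 → ℝ) :
    nM1 s = ![0, 433 / 1250 * s 0 + 1 / 2 * s 3, 17 / 1250 * s 0 + 33 / 500 * s 4, 0, 0] := rfl

lemma nw_apply (s : Fin 5 → ℝ) : nw s = s 0 + s 1 + s 2 + s 3 + s 4 := rfl

lemma nT_apply (s : Fin 5 → ℝ) : (nM0 + nM1) s = ![s 0 + s 3 + s 4, 0, 0, s 1, s 2] := by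
  rw [LinearMap.add_apply, nM0_apply, nM1_apply]
  funext i
  fin_cases i <;> simp

/-- the model with `p = 9/25` -/
noncomputable def Dtwo : Data (Fin 5 → ℝ) where
  M0 := nM0
  M1 := nM1
  w := nw
  v := ![1, 0, 0, 0, 0]
  wv := by rw [nw_apply]; simp
  TT s := by
    rw [nT_apply ((nM0 + nM1) s), nT_apply s, nw_apply]
    funext i
    fin_cases i <;> simp; ring
  wT s := by
    rw [nT_apply s, nw_apply, nw_apply]
    simp
    ring
  Tv := by
    rw [nT_apply]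
    funext i
    fin_cases i <;> simp
  MM s := by
    rw [nM1_apply (nM1 s), nM1_apply s]
    funext i
    fin_cases i <;> simp

lemma Dtwo_marginal : Dtwo.w (Dtwo.M1 Dtwo.v) = 9 / 25 := by
  change nw (nM1 ![1, 0, 0, 0, 0]) = 9 / 25
  rw [nM1_apply, nw_apply]
  simp
  norm_num

open NNReal

/-- the cone generated by the certificate -/
def coneOf (E : List Entry) : Submodule ℝ≥0 (Fin 5 → ℝ) :=
  Submodule.span ℝ≥0 {x | ∃ e ∈ E, x = e.g.toV}

lemma toV_add (x y : Z5) : (x.add y).toV = x.toV + y.toV := by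
  funext i
  fin_cases i <;> simp [Z5.add, Z5.toV]

lemma toV_smul (n : ℕ) (x : Z5) : (x.smul n).toV = (n : ℝ≥0) • x.toV := by
  funext i
  fin_cases i <;> simp [Z5.smul, Z5.toV, NNReal.smul_def]

lemma toV_m0 (x : Z5) : x.m0.toV = (5000 : ℝ) • nM0 x.toV := by
  rw [nM0_apply]
  funext i
  fin_cases i <;> simp [Z5.m0, Z5.toV] <;> ring

lemma comb_mem (K : Submodule ℝ≥0 (Fin 5 → ℝ)) : ∀ (L : List ℕ) (X : List Z5),
    (∀ x ∈ X, x.toV ∈ K) → (comb L X).toV ∈ K
  | [], X, _ => by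
    have e : (comb [] X).toV = 0 := by
      funext i
      fin_cases i <;> simp [comb, Z5.toV]
    rw [e]; exact K.zero_mem
  | n :: L, [], _ => by
    have e : (comb (n :: L) []).toV = 0 := by
      funext i
      fin_cases i <;> simp [comb, Z5.toV]
    rw [e]; exact K.zero_mem
  | n :: L, x :: X, h => by
    rw [comb, toV_add, toV_smul]
    refine K.add_mem (K.smul_mem _ (h x (by simp))) (comb_mem K L X fun y hy => h y (by simp [hy]))

lemma gen_mem {E : List Entry} {e : Entry} (he : e ∈ E) : e.g.toV ∈ coneOf E :=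
  Submodule.subset_span ⟨e, he, rfl⟩

section

variable {E : List Entry} (hE : chk5 E = true)
include hE

lemma chk_spec {e : Entry} (he : e ∈ E) : 0 < e.n ∧
    (e.g.m0).smul e.n = comb e.L (E.map Entry.g) ∧ 0 ≤ 1732 * e.g.f + 2500 * e.g.c ∧
    0 ≤ 68 * e.g.f + 330 * e.g.d ∧ 0 ≤ e.g.wt := by
  simp only [chk5, Bool.and_eq_true, List.all_eq_true, decide_eq_true_eq] at hE
  obtain ⟨⟨⟨h1, -⟩, -⟩, -⟩ := hE
  obtain ⟨⟨⟨⟨a, b⟩, c⟩, d⟩, f⟩ := h1 e he
  exact ⟨a, b, c, d, f⟩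

lemma chk_mem : (⟨1, 0, 0, 0, 0⟩ : Z5).toV ∈ coneOf E ∧ (⟨0, 1, 0, 0, 0⟩ : Z5).toV ∈ coneOf E ∧
    (⟨0, 0, 1, 0, 0⟩ : Z5).toV ∈ coneOf E := by
  have hE' := hE
  simp only [chk5, Bool.and_eq_true, decide_eq_true_eq, List.mem_map] at hE'
  obtain ⟨⟨⟨-, ⟨e1, h1, h1'⟩⟩, ⟨e2, h2, h2'⟩⟩, ⟨e3, h3, h3'⟩⟩ := hE'
  rw [← h1', ← h2', ← h3']
  exact ⟨gen_mem h1, gen_mem h2, gen_mem h3⟩

lemma M0_mem {s : Fin 5 → ℝ} (hs : s ∈ coneOf E) : nM0 s ∈ coneOf E := by
  unfold coneOf at hs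
  induction hs using Submodule.span_induction with
  | mem x hx =>
    obtain ⟨e, he, rfl⟩ := hx
    obtain ⟨h1, h2, -⟩ := chk_spec hE he
    have h3 : (comb e.L (E.map Entry.g)).toV ∈ coneOf E := by
      apply comb_mem
      intro x hx
      obtain ⟨e', he', rfl⟩ := List.mem_map.mp hx
      exact gen_mem he'
    rw [← h2, toV_smul, toV_m0] at h3
    have h4 := (coneOf E).smul_mem ((1 / (5000 * e.n) : ℝ≥0)) h3
    have e4 : (1 / (5000 * e.n) : ℝ≥0) • (e.n : ℝ≥0) • (5000 : ℝ) • nM0 e.g.toV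
        = nM0 e.g.toV := by
      have hn : (e.n : ℝ) ≠ 0 := by exact_mod_cast h1.ne'
      simp only [NNReal.smul_def, smul_smul]
      have : ((1 / (5000 * e.n) : ℝ≥0) : ℝ) * (((e.n : ℝ≥0) : ℝ) * 5000) = 1 := by
        push_cast
        field_simp
      rw [this, one_smul]
    rwa [e4] at h4
  | zero => rw [map_zero]; exact (coneOf E).zero_mem
  | add x y _ _ hx hy => rw [map_add]; exact (coneOf E).add_mem hx hy
  | smul r x _ hx =>
    have : nM0 (r • x) = r • nM0 x := by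
      rw [NNReal.smul_def, map_smul]; rfl
    rw [this]
    exact (coneOf E).smul_mem _ hx

lemma M1_mem {s : Fin 5 → ℝ} (hs : s ∈ coneOf E) : nM1 s ∈ coneOf E := by
  unfold coneOf at hs
  induction hs using Submodule.span_induction with
  | mem x hx =>
    obtain ⟨e, he, rfl⟩ := hx
    obtain ⟨-, -, h1, h2, -⟩ := chk_spec hE he
    obtain ⟨-, m1, m2⟩ := chk_mem hE
    have e1 : nM1 e.g.toV
        = (⟨(1732 * e.g.f + 2500 * e.g.c) / 5000, by
            have : (0 : ℝ) ≤ 1732 * e.g.f + 2500 * e.g.c := by exact_mod_cast h1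
            positivity⟩ : ℝ≥0) • (⟨0, 1, 0, 0, 0⟩ : Z5).toV
        + (⟨(68 * e.g.f + 330 * e.g.d) / 5000, by
            have : (0 : ℝ) ≤ 68 * e.g.f + 330 * e.g.d := by exact_mod_cast h2
            positivity⟩ : ℝ≥0) • (⟨0, 0, 1, 0, 0⟩ : Z5).toV := by
      rw [nM1_apply]
      funext i
      fin_cases i <;> simp [Z5.toV] <;> ring
    rw [e1]
    exact (coneOf E).add_mem ((coneOf E).smul_mem _ m1) ((coneOf E).smul_mem _ m2)
  | zero => rw [map_zero]; exact (coneOf E).zero_mem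
  | add x y _ _ hx hy => rw [map_add]; exact (coneOf E).add_mem hx hy
  | smul r x _ hx =>
    have : nM1 (r • x) = r • nM1 x := by
      rw [NNReal.smul_def, map_smul]; rfl
    rw [this]
    exact (coneOf E).smul_mem _ hx

lemma w_nonneg {s : Fin 5 → ℝ} (hs : s ∈ coneOf E) : 0 ≤ nw s := by
  unfold coneOf at hs
  induction hs using Submodule.span_induction with
  | mem x hx =>
    obtain ⟨e, he, rfl⟩ := hx
    obtain ⟨-, -, -, -, h1⟩ := chk_spec hE he
    have h2 : (0 : ℝ) ≤ (e.g.wt : ℝ) := by exact_mod_cast h1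
    rw [nw_apply]
    simpa [Z5.toV, Z5.wt] using h2
  | zero => simp
  | add x y _ _ hx hy => rw [map_add]; exact add_nonneg hx hy
  | smul r x _ hx =>
    have : nw (r • x) = (r : ℝ) * nw x := by
      rw [NNReal.smul_def, map_smul]; rfl
    rw [this]
    exact mul_nonneg r.2 hx

lemma st_mem : ∀ (n : ℕ) (f : Fin n → Bool), Dtwo.st n f ∈ coneOf E
  | 0, _ => by
    have h := (chk_mem hE).1
    have e : (⟨1, 0, 0, 0, 0⟩ : Z5).toV = Dtwo.v := by
      funext i
      fin_cases i <;> simp [Z5.toV, Dtwo]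
    rw [e] at h
    exact h
  | n + 1, f => by
    have ih := st_mem n (Fin.tail f)
    rw [Data.st, Data.L]
    split_ifs
    · exact M1_mem hE ih
    · exact M0_mem hE ih

theorem st_nonneg (n : ℕ) (f : Fin n → Bool) : 0 ≤ Dtwo.w (Dtwo.st n f) :=
  w_nonneg hE (st_mem hE n f)

end

end HC38bc51
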