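import Mathlib
import Pool.Agent.Work.MP_38bc51_pr.Check5

/-!
# The certificate for `p = 9/25`
-/

namespace HC38bc51

/-- generators of the invariant cone, with the certificates of invariance -/
def cert5 : List Entry :=
  [⟨⟨1, 0, 0, 0, 0⟩, 1, [0, 4]⟩,
   ⟨⟨1250, -433, -17, 0, 0⟩, 1, [0, 0, 5000]⟩,
   ⟨⟨1250, -433, -17, -433, -17⟩, 1, [0, 0, 0, 10]⟩,
   ⟨⟨400000, -108250, -7939, -216500, -8500⟩, 1, [0, 0, 0, 0, 5000]⟩,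
   ⟨⟨175000, -30310, -4879, -108250, -7939⟩, 1, [0, 0, 0, 0, 0, 10]⟩,
   ⟨⟨29405500, -3247500, -928013, -15155000, -2439500⟩, 1, [0, 0, 0, 0, 0, 0, 1000]⟩,
   ⟨⟨59055000, -13042826, -1194539, -16237500, -4640065⟩, 1, [0, 0, 0, 0, 0, 0, 0, 0, 0, 0, 0, 0, 0, 0, 12500, 0, 50]⟩,
   ⟨⟨0, 1, 0, 0, 0⟩, 1, [0, 0, 0, 0, 0, 0, 0, 0, 5000]⟩,
   ⟨⟨0, 0, 0, 1, 0⟩, 1, [0, 0, 0, 0, 0, 0, 0, 0, 0, 2500]⟩,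
   ⟨⟨2, -1, 0, 0, 0⟩, 1, [0, 0, 0, 0, 0, 0, 0, 0, 0, 0, 8]⟩,
   ⟨⟨1250, -433, -17, -625, 0⟩, 1, [0, 0, 0, 0, 0, 0, 0, 0, 0, 0, 0, 2500]⟩,
   ⟨⟨1250, -241, -34, -866, -34⟩, 1, [0, 0, 0, 0, 0, 0, 0, 0, 0, 0, 0, 0, 20]⟩,
   ⟨⟨87500, 0, -3689, -60250, -8500⟩, 1, [0, 0, 0, 0, 0, 0, 0, 0, 0, 0, 0, 0, 0, 5000]⟩,
   ⟨⟨18750, -185, -629, 0, -3689⟩, 1, [0, 0, 0, 0, 0, 0, 0, 0, 0, 0, 0, 0, 0, 0, 10]⟩,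
   ⟨⟨7530500, -3247500, -5763, -92500, -314500⟩, 1, [0, 0, 0, 0, 0, 0, 0, 0, 0, 0, 0, 0, 0, 0, 0, 1000]⟩,
   ⟨⟨35617500, -12811576, -408289, -16237500, -28815⟩, 1, [0, 0, 0, 0, 0, 0, 0, 0, 0, 0, 0, 0, 0, 0, 0, 0, 50]⟩,
   ⟨⟨1935118500, -421915200, -48249621, -1281157600, -40828900⟩, 1, [0, 0, 0, 0, 0, 0, 0, 0, 0, 0, 0, 0, 0, 0, 0, 0, 0, 1000]⟩,
   ⟨⟨3065660000, -148731242, -118114521, -2109576000, -241248105⟩, 1, [0, 0, 0, 0, 0, 0, 0, 0, 0, 0, 0, 0, 0, 0, 0, 0, 0, 0, 50]⟩,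
   ⟨⟨71483589500, -715662400, -2577060107, -14873124200, -11811452100⟩, 1, [0, 0, 0, 0, 0, 0, 0, 0, 0, 0, 0, 0, 0, 0, 0, 0, 0, 0, 0, 1000]⟩,
   ⟨⟨223995066000, -86626766514, -963104893, -3578312000, -12885300535⟩, 38650991936065, [0, 0, 0, 0, 0, 0, 0, 0, 0, 0, 0, 0, 0, 0, 471144471920622223240, 1010401605685073023056, 0, 0, 0, 0, 173749237974889803014656, 0, 0, 0, 980282608898039616990, 476172886848491584952]⟩,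
   ⟨⟨0, 0, 1, 0, 0⟩, 1, [0, 0, 0, 0, 0, 0, 0, 0, 0, 0, 0, 0, 0, 0, 0, 0, 0, 0, 0, 0, 0, 5000]⟩,
   ⟨⟨0, 0, 0, 0, 1⟩, 1, [0, 0, 0, 0, 0, 0, 0, 0, 0, 0, 0, 0, 0, 0, 0, 0, 0, 0, 0, 0, 0, 0, 10]⟩,
   ⟨⟨500, 0, -33, 0, 0⟩, 1, [0, 0, 0, 0, 0, 0, 0, 0, 0, 0, 0, 0, 0, 0, 0, 0, 0, 0, 0, 0, 0, 0, 0, 1000]⟩,
   ⟨⟨2500, -866, -34, 0, -165⟩, 1, [0, 0, 0, 0, 0, 0, 0, 0, 0, 0, 0, 0, 0, 0, 0, 0, 0, 0, 0, 0, 0, 0, 0, 0, 50]⟩,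
   ⟨⟨233500, -86600, -2311, -86600, -3400⟩, 1, [0, 0, 0, 0, 0, 0, 0, 0, 0, 0, 0, 0, 0, 0, 0, 0, 0, 0, 0, 0, 0, 0, 0, 0, 0, 1000]⟩,
   ⟨⟨717500, -187922, -14756, -433000, -11555⟩, 31616520111941, [0, 0, 0, 0, 0, 0, 0, 0, 0, 0, 0, 15325692011992601400, 0, 0, 0, 0, 642556150901, 7400507724700, 0, 0, 8124482468996815600, 0, 119755177153621413]⟩]

lemma cert5_ok : chk5 cert5 = true := by decide +kernel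

end HC38bc51
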