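import Mathlib
import Pool.Agent.Work.MP_38bc51_pr.Defs

open MeasureTheory Filter Set

namespace Pool.Agent.Work.MP_38bc51_pr

/-- probability that all coordinates of the list are `true` -/
noncomputable def ev (μ : Measure (ℤ → Bool)) (S : List ℤ) : ℝ :=
  μ.real {x | ∀ i ∈ S, x i = true}

/-- the corresponding product of indicators -/
noncomputable def J (S : List ℤ) (x : ℤ → Bool) : ℝ :=
  {x : ℤ → Bool | ∀ i ∈ S, x i = true}.indicator (fun _ => (1:ℝ)) x

theorem measurableSet_ev (S : List ℤ) : MeasurableSet {x : ℤ → Bool | ∀ i ∈ S, x i = true} := by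
  induction S with
  | nil => simp
  | cons a S ih =>
    have : {x : ℤ → Bool | ∀ i ∈ (a :: S), x i = true} =
        (fun x : ℤ → Bool => x a) ⁻¹' {true} ∩ {x : ℤ → Bool | ∀ i ∈ S, x i = true} := by
      ext x; simp
    rw [this]
    exact (measurable_pi_apply a (measurableSet_singleton _)).inter ih

theorem integral_J (μ : Measure (ℤ → Bool)) [IsProbabilityMeasure μ] (S : List ℤ) :
    ∫ x, J S x ∂μ = ev μ S := by
  unfold J ev
  rw [integral_indicator (measurableSet_ev S), integral_const]
  simp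

theorem integrable_J (μ : Measure (ℤ → Bool)) [IsProbabilityMeasure μ] (S : List ℤ) :
    Integrable (J S) μ :=
  (integrable_const (1:ℝ)).indicator (measurableSet_ev S)

theorem integral_list (μ : Measure (ℤ → Bool)) [IsProbabilityMeasure μ]
    (T : List (ℝ × List ℤ)) :
    Integrable (fun x => (T.map (fun t => t.1 * J t.2 x)).sum) μ ∧
    ∫ x, (T.map (fun t => t.1 * J t.2 x)).sum ∂μ = (T.map (fun t => t.1 * ev μ t.2)).sum := by
  induction T with
  | nil => simp
  | cons t T ih =>
    simp only [List.map_cons, List.sum_cons]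
    refine ⟨((integrable_J μ t.2).const_mul t.1).add ih.1, ?_⟩
    rw [integral_add ((integrable_J μ t.2).const_mul t.1) ih.1, integral_const_mul, integral_J,
      ih.2]

/-- Expectation of a pointwise nonnegative combination. -/
theorem ev_nonneg {k : ℕ} {μ : Measure (ℤ → Bool)} (hμ : IsHardCoreLaw k μ)
    (T : List (ℝ × List ℤ))
    (h : ∀ x : ℤ → Bool, (∀ i : ℤ, ¬ (x i = true ∧ x (i + 1) = true)) →
      0 ≤ (T.map (fun t => t.1 * J t.2 x)).sum) :
    0 ≤ (T.map (fun t => t.1 * ev μ t.2)).sum := by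
  have := hμ.prob
  rw [← (integral_list μ T).2]
  exact integral_nonneg_of_ae (hμ.hardcore.mono fun x hx => h x hx)

theorem ev_shift {k : ℕ} {μ : Measure (ℤ → Bool)} (hμ : IsHardCoreLaw k μ) (S : List ℤ) :
    ev μ (S.map (· + 1)) = ev μ S := by
  have hm : Measurable (fun (x : ℤ → Bool) (i : ℤ) => x (i + 1)) :=
    measurable_pi_lambda _ fun i => measurable_pi_apply _
  unfold ev
  conv_rhs => rw [← hμ.stationary, measureReal_def, Measure.map_apply hm (measurableSet_ev S)]
  rw [measureReal_def]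
  congr 2
  ext x
  simp

theorem ev_shift_nat {k : ℕ} {μ : Measure (ℤ → Bool)} (hμ : IsHardCoreLaw k μ) (S : List ℤ)
    (n : ℕ) : ev μ (S.map (· + (n : ℤ))) = ev μ S := by
  induction n with
  | zero => simp
  | succ n ih =>
    rw [← ih, ← ev_shift hμ (S.map (· + (n:ℤ)))]
    congr 1
    simp

theorem ev_append {k : ℕ} {μ : Measure (ℤ → Bool)} (hμ : IsHardCoreLaw k μ) (S T : List ℤ)
    (h : ∀ a ∈ S, ∀ b ∈ T, (k : ℤ) < |a - b|) : ev μ (S ++ T) = ev μ S * ev μ T := by
  have := hμ.prob
  have h1 := hμ.dependent {a | a ∈ S} {b | b ∈ T} h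
  have h2 := h1.measure_inter_preimage_eq_mul {f | ∀ a, f a = true} {f | ∀ b, f b = true}
    (by
      have : {f : {a | a ∈ S} → Bool | ∀ a, f a = true} = ⋂ a, (fun f => f a) ⁻¹' {true} := by
        ext f; simp
      rw [this]
      have : Finite {a | a ∈ S} := S.finite_toSet
      exact MeasurableSet.iInter fun a => measurable_pi_apply a (measurableSet_singleton _))
    (by
      have : {f : {a | a ∈ T} → Bool | ∀ a, f a = true} = ⋂ a, (fun f => f a) ⁻¹' {true} := by
        ext f; simp
      rw [this]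
      have : Finite {a | a ∈ T} := T.finite_toSet
      exact MeasurableSet.iInter fun a => measurable_pi_apply a (measurableSet_singleton _))
  unfold ev
  rw [measureReal_def, measureReal_def, measureReal_def, ← ENNReal.toReal_mul]
  congr 1
  have e1 : {x : ℤ → Bool | ∀ i ∈ S ++ T, x i = true} =
      (fun (x : ℤ → Bool) (a : {a | a ∈ S}) => x a) ⁻¹' {f | ∀ a, f a = true} ∩
      (fun (x : ℤ → Bool) (b : {b | b ∈ T}) => x b) ⁻¹' {f | ∀ b, f b = true} := by
    ext x
    simp only [List.mem_append, Set.mem_ofPred_eq, Set.mem_inter_iff, Set.mem_preimage,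
      Subtype.forall]
    constructor
    · intro h; exact ⟨fun i hi => h i (Or.inl hi), fun i hi => h i (Or.inr hi)⟩
    · rintro ⟨h1, h2⟩ i (hi | hi)
      · exact h1 i hi
      · exact h2 i hi
  have e2 : {x : ℤ → Bool | ∀ i ∈ S, x i = true} =
      (fun (x : ℤ → Bool) (a : {a | a ∈ S}) => x a) ⁻¹' {f | ∀ a, f a = true} := by
    ext x; simp
  have e3 : {x : ℤ → Bool | ∀ i ∈ T, x i = true} =
      (fun (x : ℤ → Bool) (a : {a | a ∈ T}) => x a) ⁻¹' {f | ∀ a, f a = true} := by
    ext x; simp
  rw [e1, h2, e2, e3]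

theorem ev_nil {k : ℕ} {μ : Measure (ℤ → Bool)} (hμ : IsHardCoreLaw k μ) : ev μ [] = 1 := by
  have := hμ.prob
  simp [ev]

theorem ev_single {k : ℕ} {μ : Measure (ℤ → Bool)} (hμ : IsHardCoreLaw k μ) (n : ℕ) :
    ev μ [(n : ℤ)] = μ.real {x | x 0 = true} := by
  have := ev_shift_nat hμ [0] n
  simp only [List.map_cons, List.map_nil, zero_add] at this
  rw [this]
  simp [ev]

/-- The two-dependent upper bound. -/
theorem two_upper {μ : Measure (ℤ → Bool)} (hμ : IsHardCoreLaw 2 μ) :
    μ.real {x | x 0 = true} ≤ (3 - Real.sqrt 5) / 2 := by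
  set p := μ.real {x | x 0 = true} with hp
  set a := ev μ [0, 2] with ha
  set b := ev μ [0, 2, 4] with hb
  have hp0 : 0 ≤ p := measureReal_nonneg
  have s0 : ev μ [0] = p := by simpa using ev_single hμ 0
  have s1 : ev μ [1] = p := by simpa using ev_single hμ 1
  have s2 : ev μ [2] = p := by simpa using ev_single hμ 2
  have s3 : ev μ [3] = p := by simpa using ev_single hμ 3
  have s4 : ev μ [4] = p := by simpa using ev_single hμ 4
  have s5 : ev μ [5] = p := by simpa using ev_single hμ 5
  have d13 : ev μ [1, 3] = a := by simpa using ev_shift_nat hμ [0, 2] 1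
  have d24 : ev μ [2, 4] = a := by simpa using ev_shift_nat hμ [0, 2] 2
  have d35 : ev μ [3, 5] = a := by simpa using ev_shift_nat hμ [0, 2] 3
  have t135 : ev μ [1, 3, 5] = b := by simpa using ev_shift_nat hμ [0, 2, 4] 1
  have p03 : ev μ [0, 3] = p * p := by
    have := ev_append hμ [0] [3] (by simp)
    simpa [s0, s3] using this
  have p04 : ev μ [0, 4] = p * p := by
    have := ev_append hμ [0] [4] (by simp)
    simpa [s0, s4] using this
  have p14 : ev μ [1, 4] = p * p := by
    have := ev_append hμ [1] [4] (by norm_num)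
    simpa [s1, s4] using this
  have p05 : ev μ [0, 5] = p * p := by
    have := ev_append hμ [0] [5] (by simp)
    simpa [s0, s5] using this
  have p15 : ev μ [1, 5] = p * p := by
    have := ev_append hμ [1] [5] (by norm_num)
    simpa [s1, s5] using this
  have p25 : ev μ [2, 5] = p * p := by
    have := ev_append hμ [2] [5] (by norm_num)
    simpa [s2, s5] using this
  have p025 : ev μ [0, 2, 5] = a * p := by
    have := ev_append hμ [0, 2] [5] (by norm_num)
    simpa [s5] using this
  have p035 : ev μ [0, 3, 5] = p * a := by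
    have := ev_append hμ [0] [3, 5] (by norm_num)
    simpa [s0, d35] using this
  -- first inequality: probability of 1..0 0..1
  have h1 := ev_nonneg hμ [(1, [0, 5]), (-1, [0, 2, 5]), (-1, [0, 3, 5])] (by
    intro x hx
    have h23 := hx 2
    norm_num at h23
    simp only [J, List.map_cons, List.map_nil, List.sum_cons, List.sum_nil, Set.indicator,
      Set.mem_ofPred_eq, List.mem_cons, List.not_mem_nil, or_false, forall_eq_or_imp, forall_eq]
    cases e0 : x 0 <;> cases e2 : x 2 <;> cases e3 : x 3 <;> cases e5 : x 5 <;> simp_all)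
  have h2 := ev_nonneg hμ [(1, []), (-1, [0]), (-1, [1]), (-1, [2]), (-1, [3]), (-1, [4]),
    (1, [0, 2]), (1, [1, 3]), (1, [2, 4]), (1, [0, 3]), (1, [0, 4]), (1, [1, 4]), (-1, [0, 2, 4]),
    (1, [5]), (-1, [0, 5]), (-1, [1, 5]), (-1, [2, 5]), (-1, [3, 5]), (1, [0, 2, 5]),
    (1, [0, 3, 5]), (1, [1, 3, 5])] (by
    intro x hx
    have h01 := hx 0
    have h12 := hx 1
    have h23 := hx 2
    have h34 := hx 3
    have h45 := hx 4
    norm_num at h01 h12 h23 h34 h45
    simp only [J, List.map_cons, List.map_nil, List.sum_cons, List.sum_nil, Set.indicator,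
      Set.mem_ofPred_eq, List.mem_cons, List.not_mem_nil, or_false, forall_eq_or_imp, forall_eq]
    cases e0 : x 0 <;> cases e1 : x 1 <;> cases e2 : x 2 <;> cases e3 : x 3 <;> cases e4 : x 4 <;>
      cases e5 : x 5 <;> simp_all)
  simp only [List.map_cons, List.map_nil, List.sum_cons, List.sum_nil, ev_nil hμ, s0, s1, s2, s3,
    s4, s5, d13, d24, d35, t135, p03, p04, p14, p05, p15, p25, p025, p035] at h1 h2
  rw [← ha, ← hb] at h2
  have h3 : 0 ≤ p * (p - 2 * a) := by linarith
  have h4 : 0 ≤ 1 - 4 * p + 2 * a + 2 * a * p := by linarith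
  have hp1 : p ≤ 1 := by
    have := hμ.prob
    exact measureReal_le_one
  have h5 : Real.sqrt 5 ^ 2 = 5 := Real.sq_sqrt (by norm_num)
  have h6 : 0 ≤ Real.sqrt 5 := Real.sqrt_nonneg 5
  have h7 : Real.sqrt 5 < 3 := by nlinarith
  rcases hp0.lt_or_eq with hpos | h0
  · have h8 : 2 * a ≤ p := by
      by_contra hc
      push Not at hc
      nlinarith [mul_pos hpos (sub_pos.2 hc)]
    have h9 : 0 ≤ 1 - 3 * p + p ^ 2 := by nlinarith
    by_contra hc
    push Not at hc
    nlinarith [mul_pos (sub_pos.2 hc) (show (0:ℝ) < (3 + Real.sqrt 5) / 2 - p by linarith)]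
  · rw [← h0]; linarith

end Pool.Agent.Work.MP_38bc51_pr
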