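import Mathlib

open MeasureTheory Filter Set
open scoped ENNReal Topology

namespace Pool.Agent.Work.MP_38bc51_pr

/-- The configuration equal to the word `w` on the window `[a, a+n)` and `false` elsewhere. -/
def ext (a : ℤ) (n : ℕ) (w : Fin n → Bool) : ℤ → Bool := fun i =>
  if h : a ≤ i ∧ i < a + n then w ⟨(i - a).toNat, by omega⟩ else false

/-- The finite-window approximations. -/
noncomputable def W (P : List Bool → ℝ) (a : ℤ) (n : ℕ) : Measure (ℤ → Bool) :=
  ∑ w : Fin n → Bool, ENNReal.ofReal (P (List.ofFn w)) • Measure.dirac (ext a n w)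

/-- `s` depends only on the coordinates in `[a, a+n)`. -/
def Dep (a : ℤ) (n : ℕ) (s : Set (ℤ → Bool)) : Prop :=
  ∀ x y : ℤ → Bool, (∀ i, a ≤ i → i < a + n → x i = y i) → (x ∈ s ↔ y ∈ s)

theorem W_apply (P : List Bool → ℝ) (a : ℤ) (n : ℕ) {s : Set (ℤ → Bool)} (hs : MeasurableSet s) :
    W P a n s = ∑ w : Fin n → Bool,
      ENNReal.ofReal (P (List.ofFn w)) * s.indicator 1 (ext a n w) := by
  simp only [W, Measure.coe_finsetSum, Finset.sum_apply, Measure.smul_apply, smul_eq_mul]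
  refine Finset.sum_congr rfl fun w _ => ?_
  rw [Measure.dirac_apply' _ hs]

theorem indicator_eq_of_iff {s : Set (ℤ → Bool)} {x y : ℤ → Bool} (h : x ∈ s ↔ y ∈ s) :
    (s.indicator 1 x : ℝ≥0∞) = s.indicator 1 y := by
  by_cases hx : x ∈ s
  · rw [Set.indicator_of_mem hx, Set.indicator_of_mem (h.1 hx)]; rfl
  · rw [Set.indicator_of_notMem hx, Set.indicator_of_notMem (fun hy => hx (h.2 hy))]

theorem W_succ_right {P : List Bool → ℝ} (hnn : ∀ w, 0 ≤ P w)
    (hr : ∀ w, P (w ++ [true]) + P (w ++ [false]) = P w) (a : ℤ) (n : ℕ)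
    {s : Set (ℤ → Bool)} (hs : MeasurableSet s) (hd : Dep a n s) :
    W P a (n + 1) s = W P a n s := by
  rw [W_apply P a (n+1) hs, W_apply P a n hs,
    ← (Fin.snocEquiv (fun _ : Fin (n+1) => Bool)).sum_comp, Fintype.sum_prod_type]
  simp only [Fintype.sum_bool]
  rw [← Finset.sum_add_distrib]
  refine Finset.sum_congr rfl fun w _ => ?_
  have key : ∀ b : Bool, (s.indicator 1 (ext a (n+1) ((Fin.snocEquiv (fun _ : Fin (n+1) => Bool))
      (b, w))) : ℝ≥0∞) = s.indicator 1 (ext a n w) := by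
    intro b
    refine indicator_eq_of_iff (hd _ _ ?_)
    intro i h1 h2
    simp only [ext, Fin.snocEquiv, Equiv.coe_fn_mk]
    rw [dif_pos ⟨h1, by push_cast; omega⟩, dif_pos ⟨h1, h2⟩]
    have : (⟨(i - a).toNat, by omega⟩ : Fin (n+1)) =
      Fin.castSucc (⟨(i-a).toNat, by omega⟩ : Fin n) := rfl
    rw [this, Fin.snoc_castSucc]
  rw [key, key, ← add_mul, ← ENNReal.ofReal_add (hnn _) (hnn _)]
  congr 2
  rw [← hr (List.ofFn w)]
  congr 1 <;> congr 1 <;>
  · rw [List.ofFn_succ']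
    simp [Fin.snocEquiv, List.concat_eq_append]

theorem W_succ_left {P : List Bool → ℝ} (hnn : ∀ w, 0 ≤ P w)
    (hl : ∀ w, P (true :: w) + P (false :: w) = P w) (a : ℤ) (n : ℕ)
    {s : Set (ℤ → Bool)} (hs : MeasurableSet s) (hd : Dep a n s) :
    W P (a - 1) (n + 1) s = W P a n s := by
  rw [W_apply P (a-1) (n+1) hs, W_apply P a n hs,
    ← (Fin.consEquiv (fun _ : Fin (n+1) => Bool)).sum_comp, Fintype.sum_prod_type]
  simp only [Fintype.sum_bool]
  rw [← Finset.sum_add_distrib]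
  refine Finset.sum_congr rfl fun w _ => ?_
  have key : ∀ b : Bool, (s.indicator 1 (ext (a-1) (n+1) ((Fin.consEquiv (fun _ : Fin (n+1) => Bool))
      (b, w))) : ℝ≥0∞) = s.indicator 1 (ext a n w) := by
    intro b
    refine indicator_eq_of_iff (hd _ _ ?_)
    intro i h1 h2
    simp only [ext, Fin.consEquiv, Equiv.coe_fn_mk]
    rw [dif_pos ⟨by omega, by push_cast; omega⟩, dif_pos ⟨h1, h2⟩]
    have : (⟨(i - (a-1)).toNat, by omega⟩ : Fin (n+1)) =
      Fin.succ (⟨(i-a).toNat, by omega⟩ : Fin n) := by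
      ext; simp only [Fin.val_succ]; omega
    rw [this, Fin.cons_succ]
  rw [key, key, ← add_mul, ← ENNReal.ofReal_add (hnn _) (hnn _)]
  congr 2
  rw [← hl (List.ofFn w)]
  congr 1 <;> congr 1 <;>
  · rw [List.ofFn_succ]
    simp [Fin.consEquiv]

theorem Dep.mono_right {a : ℤ} {n m : ℕ} {s : Set (ℤ → Bool)} (h : Dep a n s) (hnm : n ≤ m) :
    Dep a m s := fun x y hxy => h x y fun i h1 h2 => hxy i h1 (by omega)

theorem Dep.mono {a b : ℤ} {n m : ℕ} {s : Set (ℤ → Bool)} (h : Dep a n s) (hb : b ≤ a)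
    (hnm : a + n ≤ b + m) :
    Dep b m s := fun x y hxy => h x y fun i h1 h2 => hxy i (by omega) (by omega)

theorem W_eq_of_dep {P : List Bool → ℝ} (hnn : ∀ w, 0 ≤ P w)
    (hr : ∀ w, P (w ++ [true]) + P (w ++ [false]) = P w)
    (hl : ∀ w, P (true :: w) + P (false :: w) = P w) {a b : ℤ} {n m : ℕ}
    {s : Set (ℤ → Bool)} (hs : MeasurableSet s) (hd : Dep a n s) (hb : b ≤ a)
    (hnm : a + n ≤ b + m) : W P b m s = W P a n s := by
  have h1 : ∀ j : ℕ, W P (a - j) (n + j) s = W P a n s := by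
    intro j
    induction j with
    | zero => simp
    | succ j ih =>
      rw [← ih]
      have := W_succ_left hnn hl (a - j) (n + j) hs
        (hd.mono (by omega) (by push_cast; omega))
      rw [← this]
      congr 1
      push_cast
      rw [show a - ((j:ℤ) + 1) = a - j - 1 by ring, ← add_assoc]
  have h2 : ∀ (c : ℤ) (p j : ℕ), Dep c p s → W P c (p + j) s = W P c p s := by
    intro c p j hc
    induction j with
    | zero => simp
    | succ j ih =>
      rw [← ih, ← add_assoc]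
      exact W_succ_right hnn hr c (p + j) hs (hc.mono_right (by omega))
  obtain ⟨j, hj⟩ : ∃ j : ℕ, b = a - j := ⟨(a - b).toNat, by omega⟩
  obtain ⟨i, hi⟩ : ∃ i : ℕ, m = n + j + i := ⟨m - (n + j), by omega⟩
  rw [hi, h2 b (n + j) i (hd.mono (by omega) (by push_cast; omega)), hj, h1 j]

theorem dep_of_mem {s : Set (ℤ → Bool)} (hs : s ∈ measurableCylinders (fun _ : ℤ => Bool)) :
    ∃ N : ℕ, Dep (-(N:ℤ)) (2 * N) s := by
  obtain ⟨I, S, hS, rfl⟩ := (mem_measurableCylinders s).1 hs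
  obtain ⟨N, hN⟩ : ∃ N : ℕ, ∀ i ∈ I, -(N:ℤ) ≤ i ∧ i < N := by
    refine ⟨(∑ i ∈ I, i.natAbs) + 1, fun i hi => ?_⟩
    have : i.natAbs ≤ ∑ i ∈ I, i.natAbs :=
      Finset.single_le_sum (f := fun i : ℤ => i.natAbs) (fun j _ => Nat.zero_le _) hi
    constructor <;> omega
  refine ⟨N, fun x y hxy => ?_⟩
  simp only [mem_cylinder]
  have : I.restrict x = I.restrict y := by
    ext ⟨i, hi⟩
    exact hxy i (hN i hi).1 (by have := (hN i hi).2; push_cast; omega)
  rw [this]

/-- the content -/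
noncomputable def contVal (P : List Bool → ℝ) (s : Set (ℤ → Bool)) : ℝ≥0∞ :=
  limUnder atTop (fun N : ℕ => W P (-(N:ℤ)) (2 * N) s)

theorem tendsto_contVal {P : List Bool → ℝ} (hnn : ∀ w, 0 ≤ P w)
    (hr : ∀ w, P (w ++ [true]) + P (w ++ [false]) = P w)
    (hl : ∀ w, P (true :: w) + P (false :: w) = P w)
    {s : Set (ℤ → Bool)} (hs : s ∈ measurableCylinders (fun _ : ℤ => Bool)) :
    ∃ N : ℕ, Dep (-(N:ℤ)) (2 * N) s ∧ W P (-(N:ℤ)) (2 * N) s = contVal P s ∧
      Tendsto (fun N : ℕ => W P (-(N:ℤ)) (2 * N) s) atTop (𝓝 (contVal P s)) := by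
  obtain ⟨N, hN⟩ := dep_of_mem hs
  have hs' := MeasurableSet.of_mem_measurableCylinders hs
  have h1 : Tendsto (fun N : ℕ => W P (-(N:ℤ)) (2 * N) s) atTop
      (𝓝 (W P (-(N:ℤ)) (2 * N) s)) := by
    refine tendsto_const_nhds.congr' ?_
    filter_upwards [eventually_ge_atTop N] with M hM
    exact (W_eq_of_dep hnn hr hl hs' hN (by omega) (by push_cast; omega)).symm
  have h2 : contVal P s = W P (-(N:ℤ)) (2 * N) s := h1.limUnder_eq
  exact ⟨N, hN, h2.symm, h2 ▸ h1⟩

theorem isSetRing_cyl : IsSetRing (measurableCylinders (fun _ : ℤ => Bool)) where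
  empty_mem := empty_mem_measurableCylinders _
  union_mem _ _ := union_mem_measurableCylinders
  sdiff_mem _ _ := sdiff_mem_measurableCylinders

noncomputable def cont {P : List Bool → ℝ} (hnn : ∀ w, 0 ≤ P w)
    (hr : ∀ w, P (w ++ [true]) + P (w ++ [false]) = P w)
    (hl : ∀ w, P (true :: w) + P (false :: w) = P w) :
    AddContent ℝ≥0∞ (measurableCylinders (fun _ : ℤ => Bool)) where
  toFun := contVal P
  empty' := by
    obtain ⟨N, _, h, _⟩ := tendsto_contVal hnn hr hl
      (empty_mem_measurableCylinders (fun _ : ℤ => Bool))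
    rw [← h]; simp
  sUnion' I h_ss h_dis h_mem := by
    obtain ⟨N, _, h, h1⟩ := tendsto_contVal hnn hr hl h_mem
    have h2 : Tendsto (fun N : ℕ => ∑ u ∈ I, W P (-(N:ℤ)) (2 * N) u) atTop
        (𝓝 (∑ u ∈ I, contVal P u)) := by
      refine tendsto_finsetSum _ fun u hu => ?_
      obtain ⟨_, _, _, h3⟩ := tendsto_contVal hnn hr hl (h_ss hu)
      exact h3
    refine tendsto_nhds_unique h1 (h2.congr fun n => ?_)
    rw [Set.sUnion_eq_biUnion]
    exact (measure_biUnion_finset h_dis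
      (fun u hu => MeasurableSet.of_mem_measurableCylinders (h_ss hu))).symm

theorem isClosed_cyl {s : Set (ℤ → Bool)} (hs : s ∈ measurableCylinders (fun _ : ℤ => Bool)) :
    IsClosed s := by
  obtain ⟨I, S, hS, rfl⟩ := (mem_measurableCylinders s).1 hs
  exact IsClosed.cylinder I (isClosed_discrete S)

theorem exists_empty {s : ℕ → Set (ℤ → Bool)}
    (hs : ∀ n, s n ∈ measurableCylinders (fun _ : ℤ => Bool)) (ha : Antitone s)
    (he : ⋂ n, s n = ∅) : ∃ n, s n = ∅ := by
  by_contra hne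
  push Not at hne
  have := IsCompact.nonempty_iInter_of_sequence_nonempty_isCompact_isClosed s
    (fun i => ha (Nat.le_succ i)) hne
    (isClosed_cyl (hs 0)).isCompact (fun i => isClosed_cyl (hs i))
  rw [he] at this
  exact Set.not_nonempty_empty this

theorem exists_measure {P : List Bool → ℝ} (hnn : ∀ w, 0 ≤ P w)
    (hr : ∀ w, P (w ++ [true]) + P (w ++ [false]) = P w)
    (hl : ∀ w, P (true :: w) + P (false :: w) = P w) :
    ∃ μ : Measure (ℤ → Bool), ∀ (a : ℤ) (n : ℕ) (s : Set (ℤ → Bool)),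
      s ∈ measurableCylinders (fun _ : ℤ => Bool) → Dep a n s → μ s = W P a n s := by
  set m := cont hnn hr hl with hm
  have hmv : ∀ s, m s = contVal P s := fun s => rfl
  have hring := isSetRing_cyl
  have hfin : ∀ s ∈ measurableCylinders (fun _ : ℤ => Bool), m s ≠ ∞ := by
    intro s hs
    obtain ⟨N, _, h, _⟩ := tendsto_contVal hnn hr hl hs
    rw [hmv, ← h, W_apply _ _ _ (MeasurableSet.of_mem_measurableCylinders hs)]
    refine ENNReal.sum_ne_top.2 fun w _ => ENNReal.mul_ne_top ENNReal.ofReal_ne_top ?_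
    by_cases hx : ext (-(N:ℤ)) (2*N) w ∈ s
    · rw [Set.indicator_of_mem hx]; simp
    · rw [Set.indicator_of_notMem hx]; simp
  have htend : ∀ ⦃s : ℕ → Set (ℤ → Bool)⦄
      (_ : ∀ n, s n ∈ measurableCylinders (fun _ : ℤ => Bool)),
      Antitone s → (⋂ n, s n) = ∅ → Tendsto (fun n ↦ m (s n)) atTop (𝓝 0) := by
    intro s hs ha he
    obtain ⟨n, hn⟩ := exists_empty hs ha he
    refine tendsto_const_nhds.congr' ?_
    filter_upwards [eventually_ge_atTop n] with k hk
    have : s k = ∅ := by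
      rw [← Set.subset_empty_iff, ← hn]; exact ha hk
    rw [this]; exact addContent_empty.symm
  have hadd := addContent_iUnion_eq_sum_of_tendsto_zero hring m hfin htend
  have hsub := isSigmaSubadditive_of_addContent_iUnion_eq_tsum hring hadd
  refine ⟨m.measure hring.isSetSemiring
    (by rw [generateFrom_measurableCylinders]) hsub, ?_⟩
  intro a n s hs hd
  rw [AddContent.measure_eq m hring.isSetSemiring generateFrom_measurableCylinders.symm hsub hs]
  obtain ⟨N, hN, h, _⟩ := tendsto_contVal hnn hr hl hs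
  rw [hmv, ← h]
  have hs' := MeasurableSet.of_mem_measurableCylinders hs
  have hbig := W_eq_of_dep hnn hr hl hs' hN (b := min a (-(N:ℤ)))
    (m := (max (a + n) N - min a (-(N:ℤ))).toNat) (by omega) (by omega)
  have hbig2 := W_eq_of_dep hnn hr hl hs' hd (b := min a (-(N:ℤ)))
    (m := (max (a + n) N - min a (-(N:ℤ))).toNat) (by omega) (by omega)
  rw [← hbig, hbig2]

end Pool.Agent.Work.MP_38bc51_pr
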