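import Mathlib
import Pool.Agent.Work.MP_38bc51_pr.Kolm
import Pool.Agent.Work.MP_38bc51_pr.Defs

open MeasureTheory Filter Set
open scoped ENNReal Topology

namespace Pool.Agent.Work.MP_38bc51_pr

/-- pattern cylinder -/
def cyl : ℤ → List (Option Bool) → Set (ℤ → Bool)
  | _, [] => Set.univ
  | a, none :: pat => cyl (a + 1) pat
  | a, some b :: pat => {x | x a = b} ∩ cyl (a + 1) pat

theorem mem_cyl (pat : List (Option Bool)) : ∀ (a : ℤ) (x : ℤ → Bool),
    x ∈ cyl a pat ↔ ∀ (j : ℕ) (h : j < pat.length) (b : Bool), pat[j] = some b → x (a + j) = b := by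
  induction pat with
  | nil => intro a x; simp [cyl]
  | cons o pat ih =>
    intro a x
    have key : (∀ (j : ℕ) (h : j < (o :: pat).length) (b : Bool),
        (o :: pat)[j] = some b → x (a + j) = b) ↔
        ((∀ b, o = some b → x a = b) ∧ ∀ (j : ℕ) (h : j < pat.length) (b : Bool),
          pat[j] = some b → x (a + 1 + j) = b) := by
      constructor
      · intro h
        refine ⟨fun b hb => ?_, fun j hj b hb => ?_⟩
        · have := h 0 (by simp) b (by simpa using hb)
          simpa using this
        · have := h (j+1) (by simpa using hj) b (by simpa using hb)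
          rw [← this]; congr 1; push_cast; ring
      · rintro ⟨h1, h2⟩ j hj b hb
        rcases j with _ | j
        · have := h1 b (by simpa using hb)
          simpa using this
        · have := h2 j (by simpa using hj) b (by simpa using hb)
          rw [← this]; congr 1; push_cast; ring
    rw [key]
    rcases o with _ | b
    · simp only [cyl, ih]
      simp
    · simp only [cyl, Set.mem_inter_iff, Set.mem_ofPred_eq, ih]
      refine and_congr_left fun _ => ?_
      constructor
      · intro h b' hb'; rw [h]; exact Option.some.inj hb'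
      · intro h; exact h b rfl

theorem cyl_append (p1 : List (Option Bool)) : ∀ (a : ℤ) (p2 : List (Option Bool)),
    cyl a (p1 ++ p2) = cyl a p1 ∩ cyl (a + p1.length) p2 := by
  induction p1 with
  | nil => intro a p2; simp [cyl]
  | cons o p1 ih =>
    intro a p2
    have e : a + 1 + (p1.length : ℤ) = a + ((o :: p1).length : ℤ) := by
      simp; ring
    rcases o with _ | b
    · simp only [List.cons_append, cyl, ih, e]
    · simp only [List.cons_append, cyl, ih, e, Set.inter_assoc]

theorem cyl_replicate (k : ℕ) : ∀ a : ℤ, cyl a (List.replicate k none) = Set.univ := by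
  induction k with
  | zero => intro a; simp [cyl]
  | succ k ih => intro a; simp only [List.replicate_succ, cyl, ih]

theorem cyl_mem (pat : List (Option Bool)) : ∀ a : ℤ,
    cyl a pat ∈ measurableCylinders (fun _ : ℤ => Bool) := by
  induction pat with
  | nil => intro a; exact univ_mem_measurableCylinders _
  | cons o pat ih =>
    intro a
    rcases o with _ | b
    · exact ih _
    · refine inter_mem_measurableCylinders ?_ (ih _)
      rw [mem_measurableCylinders]
      refine ⟨{a}, {f | f ⟨a, by simp⟩ = b}, MeasurableSet.of_discrete, ?_⟩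
      ext x
      simp [mem_cylinder, Finset.restrict]

theorem cyl_dep (pat : List (Option Bool)) : ∀ a : ℤ, Dep a pat.length (cyl a pat) := by
  intro a x y hxy
  rw [mem_cyl, mem_cyl]
  constructor
  · intro h j hj b hb
    rw [← hxy _ (by omega) (by omega)]; exact h j hj b hb
  · intro h j hj b hb
    rw [hxy _ (by omega) (by omega)]; exact h j hj b hb

theorem measurableSet_cyl (a : ℤ) (pat : List (Option Bool)) : MeasurableSet (cyl a pat) :=
  MeasurableSet.of_mem_measurableCylinders (cyl_mem pat a)

/-- A linear representation of a `k`-dependent stationary hard-core law. -/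
structure Rep (k : ℕ) (V : Type) [AddCommGroup V] [Module ℝ V] where
  M : Bool → V →ₗ[ℝ] V
  l : V →ₗ[ℝ] ℝ
  r : V
  lr : l r = 1
  Nr : M true r + M false r = r
  lN : ∀ v, l (M true v) + l (M false v) = l v
  Nk : ∀ v, ((M true + M false) ^ k) v = l v • r
  hc : ∀ v, M true (M true v) = 0

namespace Rep

variable {k : ℕ} {V : Type} [AddCommGroup V] [Module ℝ V] (R : Rep k V)

/-- the operator of a symbol -/
def op : Option Bool → V →ₗ[ℝ] V
  | none => R.M true + R.M false
  | some b => R.M b

/-- the operator of a pattern -/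
def F : List (Option Bool) → V →ₗ[ℝ] V
  | [] => LinearMap.id
  | o :: pat => R.op o ∘ₗ F pat

theorem F_append (p1 p2 : List (Option Bool)) (v : V) : R.F (p1 ++ p2) v = R.F p1 (R.F p2 v) := by
  induction p1 with
  | nil => simp [F]
  | cons o p1 ih => simp [F, ih]

theorem F_replicate (n : ℕ) (v : V) :
    R.F (List.replicate n none) v = ((R.M true + R.M false) ^ n) v := by
  induction n with
  | zero => simp [F]
  | succ n ih =>
    rw [List.replicate_succ, pow_succ']
    simp only [F, LinearMap.comp_apply, ih, op]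
    rfl

/-- word probabilities -/
def P (w : List Bool) : ℝ := R.l (R.F (w.map some) R.r)

theorem P_left (w : List Bool) : R.P (true :: w) + R.P (false :: w) = R.P w := by
  simp only [P, List.map_cons, F, LinearMap.comp_apply, op]
  exact R.lN _

theorem P_right (w : List Bool) : R.P (w ++ [true]) + R.P (w ++ [false]) = R.P w := by
  simp only [P, List.map_append, F_append]
  rw [← map_add, ← map_add]
  congr 2
  simp only [List.map_cons, List.map_nil, F, LinearMap.comp_apply, op, LinearMap.id_apply]
  exact R.Nr

theorem measure_word {μ : Measure (ℤ → Bool)}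
    (hμ : ∀ (a : ℤ) (n : ℕ) (s : Set (ℤ → Bool)),
      s ∈ measurableCylinders (fun _ : ℤ => Bool) → Dep a n s → μ s = W R.P a n s)
    (a : ℤ) (w : List Bool) : μ (cyl a (w.map some)) = ENNReal.ofReal (R.P w) := by
  rw [hμ a _ _ (cyl_mem _ _) (cyl_dep _ _), List.length_map,
    W_apply _ _ _ (measurableSet_cyl _ _)]
  have key : ∀ w' : Fin w.length → Bool, ext a w.length w' ∈ cyl a (w.map some) ↔
      w' = fun i => w[i] := by
    intro w'
    rw [mem_cyl]
    constructor
    · intro h
      funext i
      have h2 := h i (by simp) w[i] (by simp)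
      rw [ext, dif_pos (by constructor <;> omega)] at h2
      rw [← h2]
      congr 1
      ext; simp
    · rintro rfl j hj b hb
      rw [ext, dif_pos (by simp at hj; constructor <;> omega)]
      simp at hb ⊢
      exact hb
  rw [Finset.sum_eq_single (fun i : Fin w.length => w[i])]
  · rw [Set.indicator_of_mem ((key _).2 rfl)]
    simp only [Pi.one_apply, mul_one]
    congr 2
    exact List.ofFn_getElem
  · intro w' _ hw'
    rw [Set.indicator_of_notMem (fun h => hw' ((key w').1 h)), mul_zero]
  · intro h; exact absurd (Finset.mem_univ _) h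

theorem l_F_nonneg (hpos : ∀ w, 0 ≤ R.P w) (pat : List (Option Bool)) : ∀ w : List Bool,
    0 ≤ R.l (R.F (w.map some ++ pat) R.r) := by
  induction pat with
  | nil => intro w; simpa [P] using hpos w
  | cons o pat ih =>
    intro w
    rcases o with _ | b
    · have h1 := ih (w ++ [true])
      have h2 := ih (w ++ [false])
      have : R.l (R.F (w.map some ++ none :: pat) R.r) =
          R.l (R.F ((w ++ [true]).map some ++ pat) R.r) +
          R.l (R.F ((w ++ [false]).map some ++ pat) R.r) := by
        rw [← map_add]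
        congr 1
        simp [F_append, F, op]
      rw [this]; positivity
    · have := ih (w ++ [b])
      simpa using this

theorem measure_cyl {μ : Measure (ℤ → Bool)}
    (hμ : ∀ (a : ℤ) (n : ℕ) (s : Set (ℤ → Bool)),
      s ∈ measurableCylinders (fun _ : ℤ => Bool) → Dep a n s → μ s = W R.P a n s)
    (hpos : ∀ w, 0 ≤ R.P w)
    (a : ℤ) (pat : List (Option Bool)) : ∀ w : List Bool,
    μ (cyl a (w.map some ++ pat)) = ENNReal.ofReal (R.l (R.F (w.map some ++ pat) R.r)) := by
  induction pat with
  | nil => intro w; simpa [P] using R.measure_word hμ a w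
  | cons o pat ih =>
    intro w
    rcases o with _ | b
    · have : R.l (R.F (w.map some ++ none :: pat) R.r) =
          R.l (R.F ((w ++ [true]).map some ++ pat) R.r) +
          R.l (R.F ((w ++ [false]).map some ++ pat) R.r) := by
        rw [← map_add]
        congr 1
        simp [F_append, F, op]
      rw [this, ENNReal.ofReal_add (R.l_F_nonneg hpos _ _) (R.l_F_nonneg hpos _ _), ← ih, ← ih,
        ← measure_union _ (measurableSet_cyl _ _)]
      · congr 1
        ext x
        simp only [List.map_append, List.map_cons, List.map_nil, List.append_assoc,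
          List.cons_append, List.nil_append, cyl_append, cyl, Set.mem_inter_iff, Set.mem_union,
          Set.mem_ofPred_eq]
        cases x (a + ((w.map some).length : ℤ)) <;> simp
      · rw [Set.disjoint_left]
        intro x h1 h2
        simp only [List.map_append, List.map_cons, List.map_nil, List.append_assoc,
          List.cons_append, List.nil_append, cyl_append, cyl, Set.mem_inter_iff,
          Set.mem_ofPred_eq] at h1 h2
        rw [h1.2.1] at h2
        exact absurd h2.2.1 (by simp)
    · have := ih (w ++ [b])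
      simpa using this

/-- the event that `x` agrees with `z` on `A` -/
def E (z : ℤ → Bool) (A : Finset ℤ) : Set (ℤ → Bool) := {x | ∀ i ∈ A, x i = z i}

/-- the pattern of the restriction of `z` to `A` seen from the window `[c, c+n)` -/
def pat (z : ℤ → Bool) (A : Finset ℤ) (c : ℤ) (n : ℕ) : List (Option Bool) :=
  (List.range n).map (fun j : ℕ => if c + j ∈ A then some (z (c + j)) else none)

theorem E_eq_cyl (z : ℤ → Bool) (A : Finset ℤ) (c : ℤ) (n : ℕ)
    (hA : ∀ i ∈ A, c ≤ i ∧ i < c + n) : E z A = cyl c (pat z A c n) := by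
  ext x
  rw [mem_cyl]
  simp only [E, Set.mem_ofPred_eq, pat, List.length_map, List.length_range, List.getElem_map,
    List.getElem_range]
  constructor
  · intro h j hj b hb
    by_cases hm : c + j ∈ A
    · rw [if_pos hm] at hb
      rw [h _ hm]; exact Option.some.inj hb
    · rw [if_neg hm] at hb; exact absurd hb (by simp)
  · intro h i hi
    obtain ⟨h1, h2⟩ := hA i hi
    obtain ⟨j, rfl⟩ : ∃ j : ℕ, i = c + j := ⟨(i - c).toNat, by omega⟩
    exact h j (by omega) _ (by rw [if_pos hi])

theorem half_line {μ : Measure (ℤ → Bool)}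
    (hμ : ∀ (a : ℤ) (n : ℕ) (s : Set (ℤ → Bool)),
      s ∈ measurableCylinders (fun _ : ℤ => Bool) → Dep a n s → μ s = W R.P a n s)
    (hpos : ∀ w, 0 ≤ R.P w) (z : ℤ → Bool) (A B : Finset ℤ)
    (hAB : ∀ a ∈ A, ∀ b ∈ B, a + k < b) : μ (E z A ∩ E z B) = μ (E z A) * μ (E z B) := by
  have h0 : ∀ pat, μ (cyl 0 pat) = ENNReal.ofReal (R.l (R.F pat R.r)) := fun pat => by
    simpa using R.measure_cyl hμ hpos 0 pat []
  have hc : ∀ c pat, μ (cyl c pat) = ENNReal.ofReal (R.l (R.F pat R.r)) := fun c pat => by
    simpa using R.measure_cyl hμ hpos c pat []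
  have huniv : μ Set.univ = 1 := by
    have := h0 []
    simpa [cyl, F, R.lr] using this
  rcases A.eq_empty_or_nonempty with rfl | hAne
  · have : E z ∅ = Set.univ := by ext; simp [E]
    rw [this, Set.univ_inter, huniv, one_mul]
  rcases B.eq_empty_or_nonempty with rfl | hBne
  · have : E z ∅ = Set.univ := by ext; simp [E]
    rw [this, Set.inter_univ, huniv, mul_one]
  set c := A.min' hAne with hcdef
  set m := A.max' hAne with hmdef
  set d := B.max' hBne with hddef
  have hcm : c ≤ m := A.min'_le_max' hAne
  obtain ⟨n1, hn1⟩ : ∃ n1 : ℕ, m + 1 = c + n1 := ⟨(m + 1 - c).toNat, by omega⟩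
  have hmd : m + k < d := hAB m (A.max'_mem _) d (B.max'_mem _)
  obtain ⟨n2, hn2⟩ : ∃ n2 : ℕ, d + 1 = c + n1 + k + n2 :=
    ⟨(d + 1 - (c + n1 + k)).toNat, by omega⟩
  have hA : E z A = cyl c (pat z A c n1) := E_eq_cyl z A c n1 fun i hi =>
    ⟨A.min'_le i hi, by have := A.le_max' i hi; omega⟩
  have hB : E z B = cyl (c + n1 + k) (pat z B (c + n1 + k) n2) := E_eq_cyl z B _ n2 fun i hi =>
    ⟨by have := hAB m (A.max'_mem _) i hi; omega, by have := B.le_max' i hi; omega⟩
  have hlen : (pat z A c n1).length = n1 := by simp [pat]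
  have hAB' : E z A ∩ E z B = cyl c (pat z A c n1 ++ (List.replicate k none ++
      pat z B (c + n1 + k) n2)) := by
    rw [cyl_append, cyl_append, cyl_replicate, Set.univ_inter, hlen, List.length_replicate,
      ← hA, ← hB]
  rw [hAB', hA, hB, hc, hc, hc, ← ENNReal.ofReal_mul]
  · congr 1
    rw [F_append, F_append, F_replicate, R.Nk, map_smul, map_smul, smul_eq_mul, mul_comm]
  · have := R.l_F_nonneg hpos (pat z A c n1) []
    simpa using this

theorem finite_indep {μ : Measure (ℤ → Bool)}
    (hμ : ∀ (a : ℤ) (n : ℕ) (s : Set (ℤ → Bool)),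
      s ∈ measurableCylinders (fun _ : ℤ => Bool) → Dep a n s → μ s = W R.P a n s)
    (hpos : ∀ w, 0 ≤ R.P w) (z : ℤ → Bool) : ∀ (n : ℕ) (A B : Finset ℤ), A.card + B.card ≤ n →
    (∀ a ∈ A, ∀ b ∈ B, (k : ℤ) < |a - b|) → μ (E z A ∩ E z B) = μ (E z A) * μ (E z B) := by
  have huniv : μ Set.univ = 1 := by
    have := R.measure_cyl hμ hpos 0 [] []
    simpa [cyl, F, R.lr] using this
  have hEe : E z ∅ = Set.univ := by ext; simp [E]
  have hEu : ∀ A B : Finset ℤ, E z (A ∪ B) = E z A ∩ E z B := by
    intro A B; ext x
    simp only [E, Finset.mem_union, Set.mem_ofPred_eq, Set.mem_inter_iff]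
    constructor
    · intro h; exact ⟨fun i hi => h i (Or.inl hi), fun i hi => h i (Or.inr hi)⟩
    · rintro ⟨h1, h2⟩ i (hi | hi)
      · exact h1 i hi
      · exact h2 i hi
  intro n
  induction n with
  | zero =>
    intro A B hn _
    have h1 : A = ∅ := Finset.card_eq_zero.1 (by omega)
    have h2 : B = ∅ := Finset.card_eq_zero.1 (by omega)
    rw [h1, h2, hEe, Set.inter_univ, huniv, one_mul]
  | succ n ih =>
    -- the asymmetric step
    have step : ∀ A B : Finset ℤ, A.card + B.card ≤ n + 1 →
        (∀ a ∈ A, ∀ b ∈ B, (k : ℤ) < |a - b|) → ∀ (hA : A.Nonempty) (hB : B.Nonempty),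
        B.max' hB < A.max' hA → μ (E z A ∩ E z B) = μ (E z A) * μ (E z B) := by
      intro A B hn hAB hA hB hlt
      set b := B.max' hB with hb
      have hbB : b ∈ B := B.max'_mem hB
      set A1 := A.filter (fun a => b < a) with hA1
      set A2 := A.filter (fun a => ¬ b < a) with hA2
      have hAu : A = A2 ∪ A1 := by
        rw [Finset.union_comm, hA1, hA2, Finset.filter_union_filter_not_eq]
      have hcard : A2.card + 1 ≤ A.card := by
        have : A2 ⊂ A := by
          refine ⟨Finset.filter_subset _ _, fun h => ?_⟩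
          have := h (A.max'_mem hA)
          rw [hA2, Finset.mem_filter] at this
          exact this.2 hlt
        exact Finset.card_lt_card this
      have hsep : ∀ a ∈ A2 ∪ B, ∀ c ∈ A1, a + k < c := by
        intro a ha c hc
        rw [hA1, Finset.mem_filter] at hc
        have h1 := hAB c hc.1 b hbB
        rw [abs_of_pos (by omega)] at h1
        rcases Finset.mem_union.1 ha with ha | ha
        · rw [hA2, Finset.mem_filter] at ha
          omega
        · have := B.le_max' a ha
          omega
      have e1 : μ (E z (A2 ∪ B) ∩ E z A1) = μ (E z (A2 ∪ B)) * μ (E z A1) :=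
        R.half_line hμ hpos z _ _ hsep
      have e2 : μ (E z A2 ∩ E z A1) = μ (E z A2) * μ (E z A1) :=
        R.half_line hμ hpos z _ _ (fun a ha => hsep a (Finset.mem_union_left _ ha))
      have e3 : μ (E z A2 ∩ E z B) = μ (E z A2) * μ (E z B) := by
        refine ih A2 B (by omega) (fun a ha => hAB a (Finset.filter_subset _ _ ha))
      have : E z A ∩ E z B = E z (A2 ∪ B) ∩ E z A1 := by
        conv_lhs => rw [hAu]
        rw [hEu, hEu]
        ext x; simp only [Set.mem_inter_iff]; tauto
      rw [this, e1, hEu, e3]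
      conv_rhs => rw [hAu, hEu, e2]
      ring
    intro A B hn hAB
    rcases A.eq_empty_or_nonempty with rfl | hA
    · rw [hEe, Set.univ_inter, huniv, one_mul]
    rcases B.eq_empty_or_nonempty with rfl | hB
    · rw [hEe, Set.inter_univ, huniv, mul_one]
    rcases lt_trichotomy (B.max' hB) (A.max' hA) with h | h | h
    · exact step A B hn hAB hA hB h
    · have := hAB _ (A.max'_mem hA) _ (B.max'_mem hB)
      rw [h, sub_self, abs_zero] at this
      omega
    · rw [Set.inter_comm, mul_comm]
      refine step B A (by omega) (fun b hb a ha => ?_) hB hA h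
      rw [abs_sub_comm]; exact hAB a ha b hb

theorem measurable_restr (A : Set ℤ) : Measurable (fun (x : ℤ → Bool) (a : A) => x a) :=
  measurable_pi_lambda _ fun _ => measurable_pi_apply _

theorem exists_law (hpos : ∀ w, 0 ≤ R.P w) :
    ∃ μ : Measure (ℤ → Bool), IsHardCoreLaw k μ ∧
      μ.real {x | x 0 = true} = R.l (R.M true R.r) := by
  obtain ⟨μ, hμ⟩ := exists_measure hpos R.P_right R.P_left
  have hc : ∀ c pat, μ (cyl c pat) = ENNReal.ofReal (R.l (R.F pat R.r)) := fun c pat => by
    simpa using R.measure_cyl hμ hpos c pat []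
  have huniv : μ Set.univ = 1 := by
    have := hc 0 []
    simpa [cyl, F, R.lr] using this
  have hprob : IsProbabilityMeasure μ := ⟨huniv⟩
  refine ⟨μ, ⟨hprob, ?_, ?_, ?_⟩, ?_⟩
  · -- stationarity
    have hm : Measurable (fun (x : ℤ → Bool) (i : ℤ) => x (i + 1)) :=
      measurable_pi_lambda _ fun i => measurable_pi_apply _
    have : IsProbabilityMeasure (μ.map (fun (x : ℤ → Bool) (i : ℤ) => x (i + 1))) :=
      Measure.isProbabilityMeasure_map hm.aemeasurable
    refine ext_of_generate_finite (measurableCylinders (fun _ : ℤ => Bool))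
      generateFrom_measurableCylinders.symm isPiSystem_measurableCylinders ?_ (by simp)
    intro s hs
    have hs' := MeasurableSet.of_mem_measurableCylinders hs
    rw [Measure.map_apply hm hs']
    obtain ⟨N, hN⟩ := dep_of_mem hs
    rw [hμ _ _ s hs hN]
    have hpre : (fun (x : ℤ → Bool) (i : ℤ) => x (i + 1)) ⁻¹' s ∈
        measurableCylinders (fun _ : ℤ => Bool) := by
      obtain ⟨I, S, hS, rfl⟩ := (mem_measurableCylinders s).1 hs
      rw [mem_measurableCylinders]
      refine ⟨I.image (· + 1), {f | (fun i : I => f ⟨i.1 + 1, Finset.mem_image_of_mem _ i.2⟩) ∈ S},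
        MeasurableSet.of_discrete, ?_⟩
      ext x
      simp only [Set.mem_preimage, mem_cylinder, Set.mem_ofPred_eq]
      rfl
    have hdep : Dep (-(N:ℤ) + 1) (2 * N) ((fun (x : ℤ → Bool) (i : ℤ) => x (i + 1)) ⁻¹' s) := by
      intro x y hxy
      exact hN _ _ fun i h1 h2 => hxy _ (by omega) (by omega)
    rw [hμ _ _ _ hpre hdep, W_apply _ _ _ hs', W_apply _ _ _ (hm hs')]
    refine Finset.sum_congr rfl fun w _ => ?_
    congr 1
    have e : (fun i : ℤ => ext (-(N:ℤ) + 1) (2 * N) w (i + 1)) = ext (-(N:ℤ)) (2 * N) w := by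
      funext i
      simp only [ext]
      by_cases h : -(N:ℤ) ≤ i ∧ i < -(N:ℤ) + (2 * N : ℕ)
      · rw [dif_pos h, dif_pos (by omega)]
        congr 1
        ext; simp only; omega
      · rw [dif_neg h, dif_neg (by omega)]
    have e2 : ext (-(N:ℤ) + 1) (2 * N) w ∈ (fun (x : ℤ → Bool) (i : ℤ) => x (i + 1)) ⁻¹' s ↔
        ext (-(N:ℤ)) (2 * N) w ∈ s := by
      rw [Set.mem_preimage, e]
    by_cases h : ext (-(N:ℤ)) (2 * N) w ∈ s
    · rw [Set.indicator_of_mem h, Set.indicator_of_mem (e2.2 h)]; rfl
    · rw [Set.indicator_of_notMem h, Set.indicator_of_notMem (fun h' => h (e2.1 h'))]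
  · -- hard core
    rw [ae_all_iff]
    intro i
    have h1 := hc i [some true, some true]
    have h2 : R.F [some true, some true] R.r = 0 := by
      simp only [F, LinearMap.comp_apply, op, LinearMap.id_apply]
      exact R.hc _
    rw [h2, map_zero, ENNReal.ofReal_zero] at h1
    rw [ae_iff]
    convert h1 using 2
    ext x
    simp [cyl]
  · -- dependence
    intro A B hAB
    refine ProbabilityTheory.IndepFun.process_indepFun_process
      (X := fun (a : A) (x : ℤ → Bool) => x a) (Y := fun (b : B) (x : ℤ → Bool) => x b)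
      (fun a => measurable_pi_apply _) (fun b => measurable_pi_apply _) ?_
    intro I J
    have hf : Measurable (fun (x : ℤ → Bool) (i : I) => x i) :=
      measurable_pi_lambda _ fun _ => measurable_pi_apply _
    have hg : Measurable (fun (x : ℤ → Bool) (j : J) => x j) :=
      measurable_pi_lambda _ fun _ => measurable_pi_apply _
    rw [ProbabilityTheory.indepFun_iff_map_prod_eq_prod_map_map hf.aemeasurable hg.aemeasurable]
    rw [Measure.ext_iff_singleton]
    rintro ⟨u, v⟩
    rw [← Set.singleton_prod_singleton, Measure.prod_prod,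
      Measure.map_apply (hf.prodMk hg) (by measurability),
      Measure.map_apply hf (by measurability), Measure.map_apply hg (by measurability)]
    classical
    set z : ℤ → Bool := fun i =>
      if h : ∃ h : i ∈ A, (⟨i, h⟩ : A) ∈ I then u ⟨⟨i, h.1⟩, h.2⟩
      else if h : ∃ h : i ∈ B, (⟨i, h⟩ : B) ∈ J then v ⟨⟨i, h.1⟩, h.2⟩ else false with hz
    have hzI : ∀ i : I, z i = u i := by
      intro i
      have : ∃ h : (i : ℤ) ∈ A, (⟨(i : ℤ), h⟩ : A) ∈ I := ⟨i.1.2, i.2⟩
      rw [hz]; simp only; rw [dif_pos this]
    have hzJ : ∀ j : J, z j = v j := by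
      intro j
      have h1 : ¬ ∃ h : (j : ℤ) ∈ A, (⟨(j : ℤ), h⟩ : A) ∈ I := by
        rintro ⟨h, -⟩
        have := hAB _ h _ j.1.2
        rw [sub_self, abs_zero] at this
        omega
      have : ∃ h : (j : ℤ) ∈ B, (⟨(j : ℤ), h⟩ : B) ∈ J := ⟨j.1.2, j.2⟩
      rw [hz]; simp only; rw [dif_neg h1, dif_pos this]
    have eI : (fun (x : ℤ → Bool) (i : I) => x i) ⁻¹' {u} =
        E z (I.map (Function.Embedding.subtype _)) := by
      ext x
      simp only [Set.mem_preimage, Set.mem_singleton_iff, E, Finset.mem_map,
        Function.Embedding.subtype_apply, Set.mem_ofPred_eq]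
      constructor
      · rintro rfl i ⟨a, ha, rfl⟩
        exact (hzI ⟨a, ha⟩).symm
      · intro h; funext i
        rw [← hzI i]; exact h i ⟨i.1, i.2, rfl⟩
    have eJ : (fun (x : ℤ → Bool) (j : J) => x j) ⁻¹' {v} =
        E z (J.map (Function.Embedding.subtype _)) := by
      ext x
      simp only [Set.mem_preimage, Set.mem_singleton_iff, E, Finset.mem_map,
        Function.Embedding.subtype_apply, Set.mem_ofPred_eq]
      constructor
      · rintro rfl i ⟨a, ha, rfl⟩
        exact (hzJ ⟨a, ha⟩).symm
      · intro h; funext i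
        rw [← hzJ i]; exact h i ⟨i.1, i.2, rfl⟩
    have eIJ : (fun x : ℤ → Bool => ((fun i : I => x i), (fun j : J => x j))) ⁻¹' ({u} ×ˢ {v}) =
        (fun (x : ℤ → Bool) (i : I) => x i) ⁻¹' {u} ∩
        (fun (x : ℤ → Bool) (j : J) => x j) ⁻¹' {v} := by
      ext x; simp
    rw [eIJ, eI, eJ]
    refine R.finite_indep hμ hpos z _ _ _ le_rfl ?_
    intro a ha b hb
    obtain ⟨a', -, rfl⟩ := Finset.mem_map.1 ha
    obtain ⟨b', -, rfl⟩ := Finset.mem_map.1 hb
    exact hAB _ a'.2 _ b'.2
  · -- marginal
    have h1 := hc 0 [some true]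
    have h2 : R.F [some true] R.r = R.M true R.r := by
      simp only [F, LinearMap.comp_apply, op, LinearMap.id_apply]
    have h3 := R.l_F_nonneg hpos [some true] []
    simp only [List.map_nil, List.nil_append, h2] at h3
    rw [h2] at h1
    have h4 : cyl 0 [some true] = {x : ℤ → Bool | x 0 = true} := by
      ext x; simp [cyl]
    rw [← h4, Measure.real, h1, ENNReal.toReal_ofReal h3]

end Rep

end Pool.Agent.Work.MP_38bc51_pr
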