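import Mathlib
import Pool.Agent.Work.MP_38bc51_pr.Rep

open MeasureTheory Filter Set
open scoped ENNReal Topology

namespace Pool.Agent.Work.MP_38bc51_pr

/-- `M₁` -/
noncomputable def opOne : ℝ × ℝ × ℝ →ₗ[ℝ] ℝ × ℝ × ℝ where
  toFun v := (0, v.1 + (23/50) * v.2.2, 0)
  map_add' u v := by ext <;> simp; ring
  map_smul' c v := by ext <;> simp; ring

/-- `M₀` -/
noncomputable def opZero : ℝ × ℝ × ℝ →ₗ[ℝ] ℝ × ℝ × ℝ where
  toFun v := (v.1 + (177/500) * v.2.2, -(v.1 + (23/50) * v.2.2), v.2.1)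
  map_add' u v := by ext <;> simp <;> ring
  map_smul' c v := by ext <;> simp <;> ring

/-- `ℓ` -/
noncomputable def ell : ℝ × ℝ × ℝ →ₗ[ℝ] ℝ where
  toFun v := v.1 + (177/500) * v.2.1 + (177/500) * v.2.2
  map_add' u v := by simp; ring
  map_smul' c v := by simp; ring

/-- The linear representation of the two-dependent renewal process. -/
noncomputable def R2 : Rep 2 (ℝ × ℝ × ℝ) where
  M b := if b then opOne else opZero
  l := ell
  r := (1, 0, 0)
  lr := by simp [ell]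
  Nr := by simp [opOne, opZero]
  lN v := by simp [opOne, opZero, ell]; ring
  Nk v := by
    rw [pow_two]
    ext <;> simp [opOne, opZero, ell]; ring
  hc v := by simp [opOne]

theorem seq_nonneg (s : ℕ → ℝ)
    (h : ∀ n, s (n + 3) = s (n + 2) - (23/50) * s (n + 1) + (53/500) * s n)
    (h0 : 0 ≤ s 0) (h1 : 0 ≤ s 1) (h2 : 0 ≤ s 2) (h3 : 0 ≤ s 3) (h4 : 0 ≤ s 4) (h5 : 0 ≤ s 5) :
    ∀ n, 0 ≤ s n := by
  have key : ∀ n, 0 ≤ s n ∧ 0 ≤ s (n + 1) ∧ 0 ≤ s (n + 2) ∧ 0 ≤ s (n + 3) ∧ 0 ≤ s (n + 4) ∧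
      0 ≤ s (n + 5) := by
    intro n
    induction n with
    | zero => exact ⟨h0, h1, h2, h3, h4, h5⟩
    | succ n ih =>
      obtain ⟨a0, a1, a2, a3, a4, a5⟩ := ih
      refine ⟨a1, a2, a3, a4, a5, ?_⟩
      have e0 := h n
      have e1 := h (n + 1)
      have e2 := h (n + 2)
      have e3 := h (n + 3)
      simp only [add_assoc] at e0 e1 e2 e3
      norm_num at e0 e1 e2 e3
      have : n + 1 + 5 = n + 6 := by ring
      rw [this]
      linarith
  exact fun n => (key n).1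

/-- `φ` -/
noncomputable def phi : ℝ × ℝ × ℝ →ₗ[ℝ] ℝ where
  toFun v := v.1 + (23/50) * v.2.2
  map_add' u v := by simp; ring
  map_smul' c v := by simp; ring

/-- `e` -/
noncomputable def ee : ℝ × ℝ × ℝ := (0, 1, 0)

theorem opOne_eq (v : ℝ × ℝ × ℝ) : opOne v = phi v • ee := by
  ext <;> simp [opOne, phi, ee]

theorem opZero_cubic (v : ℝ × ℝ × ℝ) : opZero (opZero (opZero v)) =
    opZero (opZero v) - (23/50 : ℝ) • opZero v + (53/500 : ℝ) • v := by
  ext <;> simp [opZero] <;> ring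

theorem seq_rec (L : ℝ × ℝ × ℝ →ₗ[ℝ] ℝ) (v : ℝ × ℝ × ℝ) (n : ℕ) :
    L (opZero^[n + 3] v) = L (opZero^[n + 2] v) - (23/50) * L (opZero^[n + 1] v) +
      (53/500) * L (opZero^[n] v) := by
  have h := opZero_cubic (opZero^[n] v)
  rw [← Function.iterate_succ_apply' opZero n v, ← Function.iterate_succ_apply' opZero (n+1) v,
    ← Function.iterate_succ_apply' opZero (n+2) v] at h
  have h2 := congrArg L h
  simpa using h2

theorem ell_r (n : ℕ) : 0 ≤ ell (opZero^[n] (1, 0, 0)) := by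
  refine seq_nonneg (fun n => ell (opZero^[n] (1, 0, 0))) (fun n => seq_rec ell _ n) ?_ ?_ ?_ ?_ ?_ ?_ n
  all_goals norm_num [Function.iterate_succ, ell, opZero]

theorem ell_e (n : ℕ) : 0 ≤ ell (opZero^[n] ee) := by
  refine seq_nonneg (fun n => ell (opZero^[n] ee)) (fun n => seq_rec ell _ n) ?_ ?_ ?_ ?_ ?_ ?_ n
  all_goals norm_num [Function.iterate_succ, ell, opZero, ee]

theorem phi_r (n : ℕ) : 0 ≤ phi (opZero^[n] (1, 0, 0)) := by
  refine seq_nonneg (fun n => phi (opZero^[n] (1, 0, 0))) (fun n => seq_rec phi _ n) ?_ ?_ ?_ ?_ ?_ ?_ n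
  all_goals norm_num [Function.iterate_succ, phi, opZero]

theorem phi_e (n : ℕ) : 0 ≤ phi (opZero^[n] ee) := by
  refine seq_nonneg (fun n => phi (opZero^[n] ee)) (fun n => seq_rec phi _ n) ?_ ?_ ?_ ?_ ?_ ?_ n
  all_goals norm_num [Function.iterate_succ, phi, opZero, ee]

theorem F_form (w : List Bool) : ∃ c : ℝ, 0 ≤ c ∧ ∃ n : ℕ,
    (R2.F (w.map some) R2.r = c • opZero^[n] (1, 0, 0) ∨
      R2.F (w.map some) R2.r = c • opZero^[n] ee) := by
  induction w with
  | nil => exact ⟨1, zero_le_one, 0, Or.inl (by simp [Rep.F, R2])⟩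
  | cons b w ih =>
    obtain ⟨c, hc, n, h⟩ := ih
    have hb : R2.F ((b :: w).map some) R2.r =
        (if b then opOne else opZero) (R2.F (w.map some) R2.r) := by
      simp only [List.map_cons, Rep.F, LinearMap.comp_apply, Rep.op]
      rfl
    cases b
    · simp only [Bool.false_eq_true, if_false] at hb
      rcases h with h | h
      · refine ⟨c, hc, n + 1, Or.inl ?_⟩
        rw [hb, h, map_smul, Function.iterate_succ_apply']
      · refine ⟨c, hc, n + 1, Or.inr ?_⟩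
        rw [hb, h, map_smul, Function.iterate_succ_apply']
    · simp only [if_true] at hb
      rcases h with h | h
      · refine ⟨c * phi (opZero^[n] (1, 0, 0)), mul_nonneg hc (phi_r n), 0, Or.inr ?_⟩
        rw [hb, h, map_smul, opOne_eq, smul_smul]; simp
      · refine ⟨c * phi (opZero^[n] ee), mul_nonneg hc (phi_e n), 0, Or.inr ?_⟩
        rw [hb, h, map_smul, opOne_eq, smul_smul]; simp

theorem R2_pos (w : List Bool) : 0 ≤ R2.P w := by
  obtain ⟨c, hc, n, h | h⟩ := F_form w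
  · rw [Rep.P, h, map_smul]
    exact mul_nonneg hc (ell_r n)
  · rw [Rep.P, h, map_smul]
    exact mul_nonneg hc (ell_e n)

theorem exists_law_two : ∃ μ : Measure (ℤ → Bool), IsHardCoreLaw 2 μ ∧
    μ.real {x | x 0 = true} = 177 / 500 := by
  obtain ⟨μ, h1, h2⟩ := R2.exists_law R2_pos
  refine ⟨μ, h1, h2.trans ?_⟩
  simp [R2, opOne, ell]

end Pool.Agent.Work.MP_38bc51_pr
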