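import Mathlib
import Pool.Agent.Work.MP_38bc51_pr.Lower

open MeasureTheory
open Pool.Agent.Work.MP_38bc51_pr

namespace Pool.Agent.Results.MP_38bc51_pr.TwoLower

/-- The critical density of two-dependent hard-core processes is at least `0.354`; in particular
it is not `1/3`. -/
theorem result : (177 / 500 : ℝ) ≤ critDensity 2 ∧ critDensity 2 ≠ 1 / 3 := by
  have h : (177 / 500 : ℝ) ≤ critDensity 2 := by
    obtain ⟨μ, h1, h2⟩ := exists_law_two
    refine le_csSup ⟨1, ?_⟩ ⟨μ, h1, h2⟩
    rintro t ⟨ν, hν, rfl⟩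
    have := hν.prob
    exact measureReal_le_one
  refine ⟨h, fun h3 => ?_⟩
  rw [h3] at h
  norm_num at h

end Pool.Agent.Results.MP_38bc51_pr.TwoLower
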