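import Mathlib
import Pool.Agent.Work.MP_38bc51_pr.Lower
import Pool.Agent.Work.MP_38bc51_pr.Ev

open MeasureTheory
open Pool.Agent.Work.MP_38bc51_pr

namespace Pool.Agent.Results.MP_38bc51_pr.TwoUpper

/-- The critical density of two-dependent hard-core processes is at most `(3 - √5)/2`. -/
theorem result : critDensity 2 ≤ (3 - Real.sqrt 5) / 2 := by
  obtain ⟨μ, h1, h2⟩ := exists_law_two
  refine csSup_le ⟨_, μ, h1, h2⟩ ?_
  rintro t ⟨ν, hν, rfl⟩
  exact two_upper hν

end Pool.Agent.Results.MP_38bc51_pr.TwoUpper
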