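import Mathlib
import Pool.Agent.Work.MP_38bc51_pr.Defs

/-!
# Word probabilities of a two-dependent hard-core process
-/

namespace HC38bc51

open MeasureTheory ProbabilityTheory

variable {Ω : Type} [MeasurableSpace Ω] {P : Measure Ω} {X : ℤ → Ω → Bool}

/-- the event that all coordinates in `S` are one -/
def ev (X : ℤ → Ω → Bool) (S : Finset ℤ) : Set Ω := {ω | ∀ i ∈ S, X i ω = true}

/-- the event that the word `w` is seen at position `a` -/
def mt (X : ℤ → Ω → Bool) : ℤ → List Bool → Set Ω
  | _, [] => Set.univ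
  | a, c :: w => {ω | X a ω = c} ∩ mt X (a + 1) w

/-- correlation function -/
noncomputable def rr (P : Measure Ω) (X : ℤ → Ω → Bool) (S : Finset ℤ) : ℝ := P.real (ev X S)

noncomputable def QQ (P : Measure Ω) (X : ℤ → Ω → Bool) (a : ℤ) (w : List Bool) (S : Finset ℤ) :
    ℝ := P.real (ev X S ∩ mt X a w)

lemma ev_meas (hX : ∀ i, Measurable (X i)) (S : Finset ℤ) : MeasurableSet (ev X S) := by
  have e : ev X S = ⋂ i ∈ S, X i ⁻¹' {true} := by ext ω; simp [ev]
  rw [e]
  exact S.measurableSet_biInter fun i _ => hX i (measurableSet_singleton _)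

lemma mt_meas (hX : ∀ i, Measurable (X i)) : ∀ (w : List Bool) (a : ℤ), MeasurableSet (mt X a w)
  | [], _ => MeasurableSet.univ
  | c :: w, a => (hX a (measurableSet_singleton c)).inter (mt_meas hX w (a + 1))

lemma QQ_nil (a : ℤ) (S : Finset ℤ) : QQ P X a [] S = rr P X S := by
  simp [QQ, rr, mt]

lemma ev_insert (a : ℤ) (S : Finset ℤ) : ev X (insert a S) = ev X S ∩ {ω | X a ω = true} := by
  ext ω
  simp only [ev, Finset.mem_insert, forall_eq_or_imp, Set.mem_inter_iff, Set.mem_ofPred_eq]
  tauto

lemma QQ_true (a : ℤ) (w : List Bool) (S : Finset ℤ) :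
    QQ P X a (true :: w) S = QQ P X (a + 1) w (insert a S) := by
  rw [QQ, QQ, ev_insert, mt, Set.inter_assoc]

lemma QQ_false [IsProbabilityMeasure P] (hX : ∀ i, Measurable (X i)) (a : ℤ) (w : List Bool)
    (S : Finset ℤ) :
    QQ P X a (false :: w) S = QQ P X (a + 1) w S - QQ P X (a + 1) w (insert a S) := by
  rw [QQ, QQ, QQ, ev_insert, mt]
  have h := measureReal_inter_add_sdiff (μ := P) (s := ev X S ∩ mt X (a + 1) w)
    (hX a (measurableSet_singleton true))
  have e1 : ev X S ∩ mt X (a + 1) w ∩ X a ⁻¹' {true}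
      = ev X S ∩ {ω | X a ω = true} ∩ mt X (a + 1) w := by
    ext ω; simp only [Set.mem_inter_iff, Set.mem_preimage, Set.mem_singleton_iff,
      Set.mem_ofPred_eq]; tauto
  have e2 : (ev X S ∩ mt X (a + 1) w) \ X a ⁻¹' {true}
      = ev X S ∩ ({ω | X a ω = false} ∩ mt X (a + 1) w) := by
    ext ω; simp only [Set.mem_inter_iff, Set.mem_preimage, Set.mem_singleton_iff,
      Set.mem_ofPred_eq, Set.mem_sdiff, Bool.not_eq_true]; tauto
  rw [e1, e2] at h
  linarith

lemma QQ_nonneg (a : ℤ) (w : List Bool) (S : Finset ℤ) : 0 ≤ QQ P X a w S := measureReal_nonneg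

section

variable (h : IsHardCore 2 P X)
include h

lemma rr_empty : rr P X ∅ = 1 := by
  have := h.prob
  have : ev X ∅ = Set.univ := by ext; simp [ev]
  rw [rr, this]; simp

lemma QQ_adj {a i : ℤ} {w : List Bool} {S : Finset ℤ} (h1 : i ∈ S) (h2 : i + 1 ∈ S) :
    QQ P X a w S = 0 := by
  have := h.prob
  have h3 := h.hard
  rw [QQ, measureReal_eq_zero_iff]
  rw [ae_iff] at h3
  refine measure_mono_null ?_ h3
  rintro ω ⟨hω, -⟩
  simp only [Set.mem_ofPred_eq, not_not]
  exact ⟨i, hω i h1, hω _ h2⟩

lemma rr_shift (S : Finset ℤ) : rr P X (S.image (· + 1)) = rr P X S := by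
  have hm1 : Measurable (fun ω (i : ℤ) => X (i + 1) ω) := measurable_pi_iff.mpr fun i => h.meas _
  have hm2 : Measurable (fun ω (i : ℤ) => X i ω) := measurable_pi_iff.mpr fun i => h.meas _
  have hs := h.stat
  have hc : MeasurableSet {x : ℤ → Bool | ∀ i ∈ S, x i = true} := by
    have e : {x : ℤ → Bool | ∀ i ∈ S, x i = true} = ⋂ i ∈ S, (fun x : ℤ → Bool => x i) ⁻¹' {true} := by
      ext; simp
    rw [e]
    exact S.measurableSet_biInter fun i _ => measurable_pi_apply i (measurableSet_singleton _)
  have h1 := congrArg (fun μ : Measure (ℤ → Bool) => μ {x | ∀ i ∈ S, x i = true}) hs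
  simp only [Measure.map_apply hm1 hc, Measure.map_apply hm2 hc] at h1
  have e1 : (fun ω (i : ℤ) => X (i + 1) ω) ⁻¹' {x | ∀ i ∈ S, x i = true}
      = ev X (S.image (· + 1)) := by
    ext ω
    simp only [ev, Set.mem_preimage, Set.mem_ofPred_eq, Finset.forall_mem_image]
  have e2 : (fun ω (i : ℤ) => X i ω) ⁻¹' {x | ∀ i ∈ S, x i = true} = ev X S := rfl
  rw [e1, e2] at h1
  rw [rr, rr, Measure.real, Measure.real, h1]

lemma rr_shift_nat (S : Finset ℤ) (k : ℕ) : rr P X (S.image (· + (k : ℤ))) = rr P X S := by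
  induction k with
  | zero => simp
  | succ k ih =>
    rw [← ih, ← rr_shift h (S.image (· + (k : ℤ)))]
    congr 1
    ext x
    simp only [Finset.mem_image]
    constructor
    · rintro ⟨y, hy, rfl⟩
      exact ⟨y + k, ⟨y, hy, rfl⟩, by push_cast; ring⟩
    · rintro ⟨_, ⟨y, hy, rfl⟩, rfl⟩
      exact ⟨y, hy, by push_cast; ring⟩

lemma rr_shift_int (S : Finset ℤ) (k : ℤ) : rr P X (S.image (· + k)) = rr P X S := by
  rcases le_total 0 k with hk | hk
  · obtain ⟨n, rfl⟩ := Int.eq_ofNat_of_zero_le hk
    exact rr_shift_nat h S n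
  · obtain ⟨n, hn⟩ := Int.eq_ofNat_of_zero_le (show 0 ≤ -k by omega)
    rw [← rr_shift_nat h (S.image (· + k)) n]
    congr 1
    ext x
    simp only [Finset.mem_image]
    constructor
    · rintro ⟨_, ⟨y, hy, rfl⟩, rfl⟩
      have : y + k + (n : ℤ) = y := by omega
      rwa [this]
    · intro hx
      exact ⟨x + k, ⟨x, hx, rfl⟩, by omega⟩

lemma rr_union {S T : Finset ℤ} (hST : ∀ a ∈ S, ∀ b ∈ T, 2 < |a - b|) :
    rr P X (S ∪ T) = rr P X S * rr P X T := by
  have := h.prob
  have hd := h.dep S T (by simpa using hST)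
  have hS : MeasurableSet {y : {a // a ∈ (S : Set ℤ)} → Bool | ∀ i, y i = true} := by
    have e : {y : {a // a ∈ (S : Set ℤ)} → Bool | ∀ i, y i = true}
        = ⋂ i, (fun y : {a // a ∈ (S : Set ℤ)} → Bool => y i) ⁻¹' {true} := by ext; simp
    rw [e]
    exact MeasurableSet.iInter fun i => measurable_pi_apply i (measurableSet_singleton _)
  have hT : MeasurableSet {y : {a // a ∈ (T : Set ℤ)} → Bool | ∀ i, y i = true} := by
    have e : {y : {a // a ∈ (T : Set ℤ)} → Bool | ∀ i, y i = true}
        = ⋂ i, (fun y : {a // a ∈ (T : Set ℤ)} → Bool => y i) ⁻¹' {true} := by ext; simp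
    rw [e]
    exact MeasurableSet.iInter fun i => measurable_pi_apply i (measurableSet_singleton _)
  have h1 := hd.measure_inter_preimage_eq_mul _ _ hS hT
  have e1 : (fun ω (a : {a // a ∈ (S : Set ℤ)}) => X a ω) ⁻¹' {y | ∀ i, y i = true} = ev X S := by
    ext ω; simp [ev]
  have e2 : (fun ω (a : {a // a ∈ (T : Set ℤ)}) => X a ω) ⁻¹' {y | ∀ i, y i = true} = ev X T := by
    ext ω; simp [ev]
  rw [e1, e2] at h1
  have e3 : ev X (S ∪ T) = ev X S ∩ ev X T := by
    ext ω
    simp only [ev, Finset.mem_union, Set.mem_inter_iff, Set.mem_ofPred_eq]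
    constructor
    · exact fun h => ⟨fun i hi => h i (Or.inl hi), fun i hi => h i (Or.inr hi)⟩
    · rintro ⟨ha, hb⟩ i (hi | hi)
      · exact ha i hi
      · exact hb i hi
  rw [rr, rr, rr, e3, Measure.real, Measure.real, Measure.real, h1, ENNReal.toReal_mul]

end

/-- chain of `l` ones at distance two, ending at `e` -/
def chain (e : ℤ) (l : ℕ) : Finset ℤ := (Finset.range l).image fun j : ℕ => e - 2 * (j : ℤ)

/-- `b l = P(X_0 = X_2 = ... = X_{2l-2} = 1)` -/
noncomputable def bb (P : Measure Ω) (X : ℤ → Ω → Bool) (l : ℕ) : ℝ := rr P X (chain 0 l)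

lemma chain_image (e : ℤ) (l : ℕ) : chain e l = (chain 0 l).image (· + e) := by
  unfold chain
  rw [Finset.image_image]
  congr 1
  funext j
  simp only [Function.comp]
  ring

lemma rr_chain (h : IsHardCore 2 P X) (e : ℤ) (l : ℕ) : rr P X (chain e l) = bb P X l := by
  rw [chain_image, rr_shift_int h, bb]

lemma insert_chain (e : ℤ) (l : ℕ) : insert (e + 2) (chain e l) = chain (e + 2) (l + 1) := by
  ext x
  simp only [chain, Finset.mem_insert, Finset.mem_image, Finset.mem_range]
  constructor
  · rintro (rfl | ⟨j, hj, rfl⟩)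
    · exact ⟨0, by omega, by simp⟩
    · exact ⟨j + 1, by omega, by push_cast; ring⟩
  · rintro ⟨j, hj, rfl⟩
    rcases j with _ | j
    · left; simp
    · right; exact ⟨j, by omega, by push_cast; ring⟩

/-- evaluation of word probabilities: `acc` is the product over finished chains, `l` the length of
the current chain and `g` the distance of its last element from the current position -/
noncomputable def evw (b : ℕ → ℝ) : List Bool → ℝ → ℕ → ℕ → ℝ
  | [], acc, l, _ => acc * b l
  | true :: w, acc, l, g =>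
    if g = 1 then 0 else if g = 2 then evw b w acc (l + 1) 1 else evw b w (acc * b l) 1 1
  | false :: w, acc, l, g => evw b w acc l (g + 1) -
    if g = 1 then 0 else if g = 2 then evw b w acc (l + 1) 1 else evw b w (acc * b l) 1 1

/-- invariant -/
def Inv (P : Measure Ω) (X : ℤ → Ω → Bool) (a : ℤ) (S : Finset ℤ) (acc : ℝ) (l g : ℕ) : Prop :=
  ∃ S' : Finset ℤ, S = S' ∪ chain (a - g) l ∧ rr P X S' = acc ∧ 1 ≤ g ∧ 1 ≤ l ∧
    (∀ s ∈ S', s < a - g - 2 * ((l : ℤ) - 1) - 2) 

lemma mem_chain {x e : ℤ} {l : ℕ} : x ∈ chain e l ↔ ∃ j : ℕ, j < l ∧ x = e - 2 * (j : ℤ) := by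
  simp only [chain, Finset.mem_image, Finset.mem_range]
  constructor
  · rintro ⟨j, hj, rfl⟩; exact ⟨j, hj, rfl⟩
  · rintro ⟨j, hj, rfl⟩; exact ⟨j, hj, rfl⟩

lemma Inv.rr_eq (h : IsHardCore 2 P X) {a : ℤ} {S : Finset ℤ} {acc : ℝ} {l g : ℕ}
    (hI : Inv P X a S acc l g) : rr P X S = acc * bb P X l := by
  obtain ⟨S', rfl, h1, h2, h3, h4⟩ := hI
  rw [rr_union h, rr_chain h, h1]
  intro s hs t ht
  obtain ⟨j, hj, rfl⟩ := mem_chain.mp ht
  have := h4 s hs
  rw [abs_sub_comm, abs_of_pos (by omega)]
  omega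

lemma evw_sound (h : IsHardCore 2 P X) : ∀ (w : List Bool) (a : ℤ) (S : Finset ℤ) (acc : ℝ)
    (l g : ℕ), Inv P X a S acc l g → QQ P X a w S = evw (bb P X) w acc l g := by
  have := h.prob
  intro w
  induction w with
  | nil =>
    intro a S acc l g hI
    rw [QQ_nil, evw, hI.rr_eq h]
  | cons c w ih =>
    intro a S acc l g hI
    have hI' := hI
    obtain ⟨S', hS, h1, h2, h3, h4⟩ := hI'
    have hmem : a - g ∈ S := by
      rw [hS]
      exact Finset.mem_union_right _ (mem_chain.mpr ⟨0, by omega, by simp⟩)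
    have hlt : ∀ s ∈ S, s ≤ a - g := by
      intro s hs
      rw [hS] at hs
      rcases Finset.mem_union.mp hs with hs | hs
      · have := h4 s hs; omega
      · obtain ⟨j, hj, rfl⟩ := mem_chain.mp hs; omega
    have hone : QQ P X (a + 1) w (insert a S) = (if g = 1 then 0 else
        if g = 2 then evw (bb P X) w acc (l + 1) 1 else evw (bb P X) w (acc * bb P X l) 1 1) := by
      rcases (by omega : g = 1 ∨ g = 2 ∨ 3 ≤ g) with hg | hg | hg
      · subst hg
        rw [if_pos rfl]
        apply QQ_adj h (i := a - 1)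
        · exact Finset.mem_insert_of_mem (by simpa using hmem)
        · simp
      · subst hg
        rw [if_neg (by omega), if_pos rfl]
        apply ih
        refine ⟨S', ?_, h1, le_rfl, by omega, ?_⟩
        · have e2 : a + 1 - ((1 : ℕ) : ℤ) = (a - ((2 : ℕ) : ℤ)) + 2 := by push_cast; ring
          have e3 : (a - ((2 : ℕ) : ℤ)) + 2 = a := by push_cast; ring
          rw [e2, ← insert_chain, hS, e3, Finset.union_insert]
        · intro s hs
          have := h4 s hs
          push_cast at this ⊢
          omega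
      · rw [if_neg (by omega), if_neg (by omega)]
        apply ih
        refine ⟨S, ?_, hI.rr_eq h, le_rfl, le_rfl, ?_⟩
        · ext x
          simp only [Finset.mem_insert, Finset.mem_union, mem_chain]
          constructor
          · rintro (rfl | hx)
            · right; exact ⟨0, by omega, by push_cast; ring⟩
            · left; exact hx
          · rintro (hx | ⟨j, hj, rfl⟩)
            · right; exact hx
            · left
              have : j = 0 := by omega
              subst this
              push_cast; ring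
        · intro s hs
          have := hlt s hs
          push_cast at this ⊢
          omega
    have hzero : QQ P X (a + 1) w S = evw (bb P X) w acc l (g + 1) := by
      apply ih
      refine ⟨S', ?_, h1, by omega, h3, ?_⟩
      · rw [hS]
        congr 2
        push_cast
        ring
      · intro s hs
        have := h4 s hs
        push_cast at this ⊢
        omega
    rcases c with _ | _
    · rw [QQ_false h.meas, hone, hzero, evw]
    · rw [QQ_true, hone, evw]

/-- evaluation from the empty state -/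
noncomputable def evw0 (b : ℕ → ℝ) : List Bool → ℝ
  | [] => 1
  | true :: w => evw b w 1 1 1
  | false :: w => evw0 b w - evw b w 1 1 1

lemma evw0_sound (h : IsHardCore 2 P X) : ∀ (w : List Bool) (a : ℤ),
    QQ P X a w ∅ = evw0 (bb P X) w := by
  have := h.prob
  intro w
  induction w with
  | nil => intro a; rw [QQ_nil, rr_empty h, evw0]
  | cons c w ih =>
    intro a
    have hone : QQ P X (a + 1) w (insert a ∅) = evw (bb P X) w 1 1 1 := by
      apply evw_sound h
      refine ⟨∅, ?_, rr_empty h, le_rfl, le_rfl, by simp⟩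
      ext x
      simp only [Finset.mem_insert, Finset.mem_union, mem_chain, Finset.notMem_empty, or_false,
        false_or]
      constructor
      · rintro rfl
        exact ⟨0, by omega, by push_cast; ring⟩
      · rintro ⟨j, hj, rfl⟩
        have : j = 0 := by omega
        subst this
        push_cast; ring
    rcases c with _ | _
    · rw [QQ_false h.meas, hone, ih, evw0]
    · rw [QQ_true, hone, evw0]

lemma word_nonneg (h : IsHardCore 2 P X) (w : List Bool) : 0 ≤ evw0 (bb P X) w := by
  rw [← evw0_sound h w 0]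
  exact QQ_nonneg _ _ _

lemma bb_one (h : IsHardCore 2 P X) : bb P X 1 = P.real {ω | X 0 ω = true} := by
  rw [bb, rr]
  congr 1
  ext ω
  simp [ev, chain]

end HC38bc51
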