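import Mathlib
import Pool.Agent.Work.MP_38bc51_pr.Words

/-!
# The upper bound `p_2 ≤ 0.371`
-/

namespace HC38bc51

open MeasureTheory ProbabilityTheory

lemma wordA (b : ℕ → ℝ) : evw0 b [false, false, false, false, false, false, false, false, true]
    = b 1 - b 2 + b 3 - b 4 + b 5 - 6 * b 1 ^ 2 + 8 * b 1 * b 2 - 4 * b 1 * b 3 - 2 * b 2 ^ 2
      + 6 * b 1 ^ 3 - 3 * b 1 ^ 2 * b 2 := by
  simp [evw0, evw]
  ring

lemma wordB (b : ℕ → ℝ) : evw0 b [false, false, false, false, true, false, false, false, false]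
    = b 1 - 2 * b 2 + 3 * b 3 - 2 * b 4 + b 5 - 4 * b 1 ^ 2 + 4 * b 1 * b 2 - 4 * b 1 * b 3
      + 4 * b 1 ^ 3 := by
  simp [evw0, evw]
  ring

lemma wordC (b : ℕ → ℝ) : evw0 b [false, false, true, false, false, false, false, false, true]
    = b 4 - b 5 + b 1 ^ 2 - 3 * b 1 * b 2 + b 1 * b 3 + b 2 ^ 2 - b 1 ^ 3 + b 1 ^ 2 * b 2 := by
  simp [evw0, evw]
  ring

lemma wordD (b : ℕ → ℝ) : evw0 b [false, true, false, false, false, false, false, true, false]
    = b 4 + b 1 ^ 2 - 2 * b 1 * b 2 - b 1 ^ 3 := by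
  simp [evw0, evw]
  ring

lemma wordE (b : ℕ → ℝ) : evw0 b [false, true, false, false, false, false, true, false, true]
    = b 1 * b 2 - b 1 * b 3 - b 2 ^ 2 := by
  simp [evw0, evw]
  ring


lemma wordG (b : ℕ → ℝ) : evw0 b [false, false, false, false]
    = 1 - 4 * b 1 + 2 * b 2 + b 1 ^ 2 := by
  simp [evw0, evw]
  ring

lemma wordH (b : ℕ → ℝ) : evw0 b [true, false, false, false, false, true]
    = b 1 ^ 2 - 2 * b 1 * b 2 := by
  simp [evw0, evw]
  ring


lemma disc_neg (p : ℝ) (h1 : 371 / 1000 < p) (h2 : p ≤ 382 / 1000) :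
    (2 * (343 / 40) * p * (1 - p) + 1 - 4 * p + p ^ 2) ^ 2
      + 4 * ((343 / 40) * (1 - 2 * p) + 3 - 4 * p)
        * ((343 / 40) * (1 - 5 * p + 5 * p ^ 2) + (1 - 2 * p + 2 * p ^ 2)) < 0 := by
  obtain ⟨s, rfl⟩ : ∃ s, p = 371 / 1000 + s := ⟨p - 371 / 1000, by ring⟩
  have hs : 0 < s := by linarith
  have hs2 : s ≤ 11 / 1000 := by linarith
  have e : (2 * (343 / 40) * (371 / 1000 + s) * (1 - (371 / 1000 + s)) + 1 - 4 * (371 / 1000 + s)
      + (371 / 1000 + s) ^ 2) ^ 2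
      + 4 * ((343 / 40) * (1 - 2 * (371 / 1000 + s)) + 3 - 4 * (371 / 1000 + s))
        * ((343 / 40) * (1 - 5 * (371 / 1000 + s) + 5 * (371 / 1000 + s) ^ 2)
          + (1 - 2 * (371 / 1000 + s) + 2 * (371 / 1000 + s) ^ 2))
      = -5042248158151 / 400000000000000 - 8824835324181 / 100000000000 * s
        + 306399401667 / 200000000 * s ^ 2 - 383410941 / 100000 * s ^ 3
        + 104329 / 400 * s ^ 4 := by ring
  rw [e]
  have h3 : s ^ 2 ≤ 11 / 1000 * s := by nlinarith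
  have h4 : 0 ≤ s ^ 3 := by positivity
  have h5 : s ^ 4 ≤ s ^ 3 := by
    have : s ^ 4 = s * s ^ 3 := by ring
    rw [this]
    nlinarith
  nlinarith

lemma upper_alg (p x y z u : ℝ) (h1 : 371 / 1000 < p) (hp1 : p ≤ 1)
    (hA : 0 ≤ p - x + y - z + u - 6 * p ^ 2 + 8 * p * x - 4 * p * y - 2 * x ^ 2
      + 6 * p ^ 3 - 3 * p ^ 2 * x)
    (hB : 0 ≤ p - 2 * x + 3 * y - 2 * z + u - 4 * p ^ 2 + 4 * p * x - 4 * p * y + 4 * p ^ 3)
    (hC : 0 ≤ z - u + p ^ 2 - 3 * p * x + p * y + x ^ 2 - p ^ 3 + p ^ 2 * x)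
    (hD : 0 ≤ z + p ^ 2 - 2 * p * x - p ^ 3)
    (hE : 0 ≤ p * x - p * y - x ^ 2)
    (hG : 0 ≤ 1 - 4 * p + 2 * x + p ^ 2)
    (hH : 0 ≤ p ^ 2 - 2 * p * x) : False := by
  have hp : 0 < p := by linarith
  have hx : 2 * x ≤ p := by
    by_contra hc
    push Not at hc
    nlinarith
  have h2 : p ≤ 382 / 1000 := by
    by_contra hc
    push Not at hc
    nlinarith
  have hdisc := disc_neg p h1 h2
  set a : ℝ := (343 / 40) * (1 - 2 * p) + 3 - 4 * p with ha
  set b : ℝ := 2 * (343 / 40) * p * (1 - p) + 1 - 4 * p + p ^ 2 with hb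
  set c : ℝ := (343 / 40) * (1 - 5 * p + 5 * p ^ 2) + (1 - 2 * p + 2 * p ^ 2) with hc
  have hapos : 0 < a := by rw [ha]; linarith
  have hε : 0 ≤ (343 / 40) * (1 - 3 * p) + 3 - 3 * p := by linarith
  have hF : 0 ≤ -a * x ^ 2 + p * b * x + p ^ 2 * c := by
    have h3 : 0 ≤ p * ((343 / 40) * (p - x + y - z + u - 6 * p ^ 2 + 8 * p * x - 4 * p * y
        - 2 * x ^ 2 + 6 * p ^ 3 - 3 * p ^ 2 * x)
      + (p - 2 * x + 3 * y - 2 * z + u - 4 * p ^ 2 + 4 * p * x - 4 * p * y + 4 * p ^ 3)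
      + (343 / 40 + 1) * (z - u + p ^ 2 - 3 * p * x + p * y + x ^ 2 - p ^ 3 + p ^ 2 * x)
      + (z + p ^ 2 - 2 * p * x - p ^ 3))
      + ((343 / 40) * (1 - 3 * p) + 3 - 3 * p) * (p * x - p * y - x ^ 2) := by positivity
    have e : p * ((343 / 40) * (p - x + y - z + u - 6 * p ^ 2 + 8 * p * x - 4 * p * y
        - 2 * x ^ 2 + 6 * p ^ 3 - 3 * p ^ 2 * x)
      + (p - 2 * x + 3 * y - 2 * z + u - 4 * p ^ 2 + 4 * p * x - 4 * p * y + 4 * p ^ 3)
      + (343 / 40 + 1) * (z - u + p ^ 2 - 3 * p * x + p * y + x ^ 2 - p ^ 3 + p ^ 2 * x)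
      + (z + p ^ 2 - 2 * p * x - p ^ 3))
      + ((343 / 40) * (1 - 3 * p) + 3 - 3 * p) * (p * x - p * y - x ^ 2)
      = -a * x ^ 2 + p * b * x + p ^ 2 * c := by
      rw [ha, hb, hc]; ring
    rw [← e]; exact h3
  have h4 : 0 ≤ 4 * a * (-a * x ^ 2 + p * b * x + p ^ 2 * c) := by positivity
  have h5 : 4 * a * (-a * x ^ 2 + p * b * x + p ^ 2 * c)
      = -(2 * a * x - p * b) ^ 2 + p ^ 2 * (b ^ 2 + 4 * a * c) := by ring
  rw [h5] at h4
  have h6 : p ^ 2 * (b ^ 2 + 4 * a * c) < 0 := mul_neg_of_pos_of_neg (by positivity) hdisc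
  have h7 : 0 ≤ (2 * a * x - p * b) ^ 2 := sq_nonneg _
  linarith

theorem upper {Ω : Type} [MeasurableSpace Ω] {P : Measure Ω} {X : ℤ → Ω → Bool}
    (h : IsHardCore 2 P X) : P.real {ω | X 0 ω = true} ≤ 371 / 1000 := by
  have := h.prob
  rw [← bb_one h]
  by_contra hc
  push Not at hc
  have hp1 : bb P X 1 ≤ 1 := by
    rw [bb_one h]; exact measureReal_le_one
  have hA := word_nonneg h [false, false, false, false, false, false, false, false, true]
  have hB := word_nonneg h [false, false, false, false, true, false, false, false, false]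
  have hC := word_nonneg h [false, false, true, false, false, false, false, false, true]
  have hD := word_nonneg h [false, true, false, false, false, false, false, true, false]
  have hE := word_nonneg h [false, true, false, false, false, false, true, false, true]
  have hG := word_nonneg h [false, false, false, false]
  have hH := word_nonneg h [true, false, false, false, false, true]
  rw [wordA] at hA
  rw [wordB] at hB
  rw [wordC] at hC
  rw [wordD] at hD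
  rw [wordE] at hE
  rw [wordG] at hG
  rw [wordH] at hH
  exact upper_alg _ _ _ _ _ hc hp1 hA hB hC hD hE hG hH

end HC38bc51
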