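import Mathlib
import Pool.Agent.Work.MP_38bc51_pr.Law
import Pool.Agent.Work.MP_38bc51_pr.Cert5
import Pool.Agent.Work.MP_38bc51_pr.Upper

/-!
# Upper bound for the critical density of two-dependent hard-core processes
-/

namespace Pool.Agent.Results.MP_38bc51_pr.UpperBound

open MeasureTheory HC38bc51

theorem result : pcrit 2 ≤ 371 / 1000 := by
  obtain ⟨P, hP, -⟩ := exists_process Dtwo (st_nonneg cert5_ok)
  refine csSup_le ⟨_, ℤ → Bool, inferInstance, P, fun i x => x i, hP, rfl⟩ ?_
  rintro p ⟨Ω, i, P', X, h, rfl⟩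
  exact upper h

end Pool.Agent.Results.MP_38bc51_pr.UpperBound
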